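import Pool.Agent.Lib.AMB.Wreath

/-!
# The group generated by the top group, a sparse function and a delta function
-/

set_option autoImplicit false

namespace Pool.Agent.AMB

open Finset

/-! ### sparse sequences -/

section sparse

variable {G : Type*} [Group G]

/-- no member is of the form `x y⁻¹ z` with earlier members `x`, `y`, `z` -/
def Sparse (t : ℕ → G) : Prop :=
  ∀ n i j k, i < n → j < n → k < n → t n ≠ t i * (t j)⁻¹ * t k

theorem exists_sparse [Infinite G] : ∃ t : ℕ → G, Sparse t := by
  classical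
  let bad : Finset G → Finset G := fun s =>
    ((s ×ˢ s) ×ˢ s).image fun p => p.1.1 * (p.1.2)⁻¹ * p.2
  have hnext : ∀ s : Finset G, ∃ x, x ∉ bad s := fun s => Infinite.exists_notMem_finset _
  choose next hn using hnext
  let st : ℕ → Finset G := fun n => Nat.rec ∅ (fun _ s => insert (next s) s) n
  have hst : ∀ n, st (n + 1) = insert (next (st n)) (st n) := fun _ => rfl
  have hmem : ∀ n i, i < n → next (st i) ∈ st n := by
    intro n
    induction n with
    | zero => intro i hi; omega
    | succ n ih =>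
      intro i hi
      rw [hst]
      rcases Nat.lt_succ_iff_lt_or_eq.1 hi with h | h
      · exact mem_insert_of_mem (ih i h)
      · rw [h]
        exact mem_insert_self _ _
  refine ⟨fun n => next (st n), fun n i j k hi hj hk h => hn (st n) ?_⟩
  exact mem_image.2 ⟨((next (st i), next (st j)), next (st k)),
    mem_product.2 ⟨mem_product.2 ⟨hmem n i hi, hmem n j hj⟩, hmem n k hk⟩, h.symm⟩

theorem Sparse.injective {t : ℕ → G} (ht : Sparse t) : Function.Injective t := by
  have key : ∀ a b, a < b → t a ≠ t b := by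
    intro a b hab h
    exact ht b a a a hab hab hab (by rw [← h]; group)
  intro a b h
  rcases lt_trichotomy a b with h1 | h1 | h1
  · exact absurd h (key a b h1)
  · exact h1
  · exact absurd h.symm (key b a h1)

theorem Sparse.max_le {t : ℕ → G} (ht : Sparse t) {a i b j : ℕ}
    (h : t a * (t i)⁻¹ = t b * (t j)⁻¹) (h1 : t b * (t j)⁻¹ ≠ 1) : max b j ≤ max a i := by
  by_contra hlt
  rw [not_le] at hlt
  have hbj : b ≠ j := by
    rintro rfl
    exact h1 (mul_inv_cancel _)
  rcases lt_or_gt_of_ne hbj with h2 | h2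
  · -- `j` is the largest
    rw [max_eq_right h2.le] at hlt
    refine ht j i a b (lt_of_le_of_lt (le_max_right _ _) hlt)
      (lt_of_le_of_lt (le_max_left _ _) hlt) h2 ?_
    have h3 : (t j)⁻¹ = (t b)⁻¹ * (t a * (t i)⁻¹) := by rw [h]; group
    have h4 : t j = ((t b)⁻¹ * (t a * (t i)⁻¹))⁻¹ := by rw [← h3, inv_inv]
    rw [h4]
    group
  · rw [max_eq_left h2.le] at hlt
    refine ht b a i j (lt_of_le_of_lt (le_max_left _ _) hlt)
      (lt_of_le_of_lt (le_max_right _ _) hlt) h2 ?_
    rw [h]
    group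

theorem Sparse.finite {t : ℕ → G} (ht : Sparse t) {c : G} (hc : c ≠ 1) :
    {a | ∃ b, t a * (t b)⁻¹ = c}.Finite := by
  by_cases hne : ∃ a i, t a * (t i)⁻¹ = c
  · obtain ⟨a, i, h⟩ := hne
    refine (Set.finite_Iic (max a i)).subset ?_
    rintro b ⟨j, hj⟩
    exact (le_max_left b j).trans (ht.max_le (h.trans hj.symm) (by rw [hj]; exact hc))
  · refine Set.Finite.subset Set.finite_empty ?_
    rintro a ⟨i, h⟩
    exact absurd ⟨a, i, h⟩ hne

end sparse

/-! ### the group -/

section EE

variable {B G : Type*} [Group B] [Group G]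

/-- the function with the values `v i` at `t i` and `1` elsewhere -/
noncomputable def sp (t : ℕ → G) (v : ℕ → B) : G → B := Function.extend t v 1

theorem sp_apply {t : ℕ → G} (ht : Sparse t) (v : ℕ → B) (i : ℕ) : sp t v (t i) = v i :=
  ht.injective.extend_apply v 1 i

omit [Group G] in
theorem sp_ne {t : ℕ → G} {v : ℕ → B} {x : G} (h : sp t v x ≠ 1) : ∃ i, t i = x := by
  by_contra hc
  exact h (Function.extend_apply' _ _ _ hc)

/-- the generators of the base group -/
def gens (t : ℕ → G) (v : ℕ → B) (s : B) : Set (G → B) :=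
  Set.range (fun g => tr g (sp t v)) ∪ Set.range (fun g => tr g (dl s))

theorem dl_support (s : B) (g : G) : {x | tr g (dl s) x ≠ 1} ⊆ {g} := by
  intro x hx
  by_contra hc
  refine hx ?_
  unfold tr
  refine dl_ne s fun h => hc ?_
  have : x = g := by
    calc x = g * (g⁻¹ * x) := by group
      _ = g := by rw [h, mul_one]
  exact this

theorem gens_AD {t : ℕ → G} (ht : Sparse t) (v : ℕ → B) (s : B) :
    ∀ z ∈ gens t v s, ∀ z' ∈ gens t v s, z ≠ z' → AD z z' := by
  rintro z (⟨g, rfl⟩ | ⟨g, rfl⟩) z' (⟨g', rfl⟩ | ⟨g', rfl⟩) hne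
  · have hgg : g ≠ g' := by
      rintro rfl
      exact hne rfl
    have hc : g⁻¹ * g' ≠ 1 := fun h => hgg (by
      calc g = g * (g⁻¹ * g') := by rw [h, mul_one]
        _ = g' := by group)
    refine ((ht.finite hc).image fun a => g * t a).subset ?_
    rintro x ⟨h1, h2⟩
    obtain ⟨a, ha⟩ := sp_ne h1
    obtain ⟨b, hb⟩ := sp_ne h2
    refine ⟨a, ⟨b, ?_⟩, ?_⟩
    · rw [ha, hb]
      group
    · simp only
      rw [ha]
      group
  · exact (Set.finite_singleton g').subset fun x hx => dl_support s g' hx.2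
  · exact (Set.finite_singleton g).subset fun x hx => dl_support s g hx.1
  · exact (Set.finite_singleton g').subset fun x hx => dl_support s g' hx.2

/-- the group -/
noncomputable def EE (t : ℕ → G) (v : ℕ → B) (s : B) : Subgroup (RegularWreathProduct B G) :=
  Subgroup.closure (Set.range (RegularWreathProduct.inl : G →* RegularWreathProduct B G) ∪
    {fn (sp t v), fn (dl s)})

theorem inl_mem (t : ℕ → G) (v : ℕ → B) (s : B) (g : G) :
    RegularWreathProduct.inl g ∈ EE t v s :=
  Subgroup.subset_closure (Or.inl ⟨g, rfl⟩)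

theorem sp_mem (t : ℕ → G) (v : ℕ → B) (s : B) : fn (sp t v) ∈ EE t v s :=
  Subgroup.subset_closure (Or.inr (Or.inl rfl))

theorem dl_mem (t : ℕ → G) (v : ℕ → B) (s : B) : fn (dl s) ∈ EE t v s :=
  Subgroup.subset_closure (Or.inr (Or.inr rfl))

/-- translation as a homomorphism -/
def trH (g : G) : (G → B) →* (G → B) := MonoidHom.mk' (tr g) fun _ _ => rfl

theorem tr_mem (t : ℕ → G) (v : ℕ → B) (s : B) (g : G) {f : G → B}
    (hf : f ∈ Subgroup.closure (gens t v s)) : tr g f ∈ Subgroup.closure (gens t v s) := by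
  have h : Subgroup.closure (gens t v s) ≤ (Subgroup.closure (gens t v s)).comap (trH g) := by
    rw [Subgroup.closure_le]
    rintro z (⟨g', rfl⟩ | ⟨g', rfl⟩)
    · refine Subgroup.subset_closure (Or.inl ⟨g * g', ?_⟩)
      funext x
      change sp t v ((g * g')⁻¹ * x) = sp t v (g'⁻¹ * (g⁻¹ * x))
      rw [mul_inv_rev, mul_assoc]
    · refine Subgroup.subset_closure (Or.inr ⟨g * g', ?_⟩)
      funext x
      change dl s ((g * g')⁻¹ * x) = dl s (g'⁻¹ * (g⁻¹ * x))
      rw [mul_inv_rev, mul_assoc]
  exact h hf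

/-- the elements with base part in the group generated by the translates -/
def PP (t : ℕ → G) (v : ℕ → B) (s : B) : Subgroup (RegularWreathProduct B G) where
  carrier := {w | w.left ∈ Subgroup.closure (gens t v s)}
  mul_mem' {w w'} hw hw' := by
    simp only [Set.mem_ofPred_eq] at hw hw' ⊢
    exact mul_mem hw (tr_mem t v s w.right hw')
  one_mem' := by
    simp only [Set.mem_ofPred_eq]
    exact one_mem _
  inv_mem' {w} hw := by
    simp only [Set.mem_ofPred_eq] at hw ⊢
    have h := inv_mem (tr_mem t v s w.right⁻¹ hw)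
    have e : (w⁻¹).left = (tr w.right⁻¹ w.left)⁻¹ := by
      funext x
      simp only [RegularWreathProduct.inv_left, tr, inv_inv, Pi.inv_apply]
    rw [e]
    exact h

theorem mem_PP (t : ℕ → G) (v : ℕ → B) (s : B) (w : RegularWreathProduct B G) :
    w ∈ PP t v s ↔ w.left ∈ Subgroup.closure (gens t v s) := Iff.rfl

theorem EE_le (t : ℕ → G) (v : ℕ → B) (s : B) : EE t v s ≤ PP t v s := by
  unfold EE
  rw [Subgroup.closure_le]
  rintro w (⟨g, rfl⟩ | hw)
  · exact (mem_PP t v s _).2 (one_mem _)
  · refine (mem_PP t v s _).2 ?_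
    rcases hw with hw | hw
    · rw [hw]
      refine Subgroup.subset_closure (Or.inl ⟨1, ?_⟩)
      funext x
      simp only [tr, inv_one, one_mul]
      rfl
    · rw [Set.mem_singleton_iff.1 hw]
      refine Subgroup.subset_closure (Or.inr ⟨1, ?_⟩)
      funext x
      simp only [tr, inv_one, one_mul]
      rfl

theorem folner_EE {t : ℕ → G} (ht : Sparse t) (v : ℕ → B) (s : B) (hG : Folner G)
    (hB : Folner B) {n : ℕ} (hn : 0 < n) (hBn : ∀ b : B, b ^ n = 1) : Folner (EE t v s) := by
  refine folner_of_injective (Subgroup.inclusion (EE_le t v s))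
    (Subgroup.inclusion_injective _) ?_
  let π : PP t v s →* G := RegularWreathProduct.rightHom.comp (PP t v s).subtype
  refine folner_of_ker_of_injective π hG
    (MonoidHom.mk' (fun w : π.ker => (⟨((w : PP t v s) : RegularWreathProduct B G).left,
      (mem_PP t v s _).1 (w : PP t v s).2⟩ : Subgroup.closure (gens t v s))) ?_) ?_
    (folner_closure_AD hB hn hBn _ (gens_AD ht v s))
  · rintro ⟨⟨a, ha⟩, ha'⟩ ⟨⟨b, hb⟩, hb'⟩
    have ha1 : a.right = 1 := ha'
    apply Subtype.ext
    funext x
    change (a * b).left x = a.left x * b.left x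
    simp only [RegularWreathProduct.mul_left, Pi.mul_apply, ha1, inv_one, one_mul]
  · rintro ⟨⟨a, ha⟩, ha'⟩ ⟨⟨b, hb⟩, hb'⟩ h
    have ha1 : a.right = 1 := ha'
    have hb1 : b.right = 1 := hb'
    have h1 : a.left = b.left := congrArg (fun y : Subgroup.closure (gens t v s) =>
      (y : G → B)) h
    exact Subtype.ext (Subtype.ext (RegularWreathProduct.ext h1 (ha1.trans hb1.symm)))

theorem fg_EE [Group.FG G] (t : ℕ → G) (v : ℕ → B) (s : B) : Group.FG (EE t v s) := by
  rw [Group.fg_iff_subgroup_fg]
  unfold EE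
  rw [Subgroup.closure_union]
  refine Subgroup.FG.sup ?_ ?_
  · have h : Subgroup.closure (Set.range
        (RegularWreathProduct.inl : G →* RegularWreathProduct B G)) =
        (RegularWreathProduct.inl : G →* RegularWreathProduct B G).range := by
      rw [← MonoidHom.coe_range, Subgroup.closure_eq]
    rw [h, ← Group.fg_iff_subgroup_fg]
    exact Group.fg_of_surjective (MonoidHom.rangeRestrict_surjective _)
  · classical
    exact ⟨{fn (sp t v), fn (dl s)}, by simp⟩

/-- a commutator in terms of a homomorphism `u` and two elements -/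
def mk {Q : Type*} [Group Q] (u : G →* Q) (x y : Q) (g : G) : Q :=
  ((u g)⁻¹ * x * u g) * y * ((u g)⁻¹ * x * u g)⁻¹ * y⁻¹

theorem mk_map {Q Q' : Type*} [Group Q] [Group Q'] (j : Q →* Q') (u : G →* Q) (x y : Q)
    (g : G) : mk (j.comp u) (j x) (j y) g = j (mk u x y g) := by
  simp only [mk, map_mul, map_inv, MonoidHom.comp_apply]

theorem mk_eq (f : G → B) (s : B) (g : G) :
    mk RegularWreathProduct.inl (fn f) (fn (dl s)) g = fn (dl (f g * s * (f g)⁻¹ * s⁻¹)) := by
  have h : (RegularWreathProduct.inl g)⁻¹ * fn f * RegularWreathProduct.inl g =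
      fn (tr g⁻¹ f) := by
    rw [← conj_fn, map_inv, inv_inv]
  unfold mk
  rw [h, ← map_inv, ← map_inv, ← map_mul, ← map_mul, ← map_mul,
    comm_eq_dl _ _ fun x hx => Or.inr (dl_ne s hx)]
  simp only [tr, inv_inv, mul_one, dl_one]

end EE

end Pool.Agent.AMB
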