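import Mathlib

/-!
# Foelner sets: subgroups, extensions, unions, quotients, finite powers
-/

set_option autoImplicit false

namespace Pool.Agent.AMB

open Finset

/-- Foelner's condition, in the form of the frozen statement -/
def Folner (G : Type*) [Group G] : Prop :=
  ∀ (S : Finset G) (ε : ℝ), 0 < ε →
    ∃ F : Finset G, F.Nonempty ∧
      ∀ s ∈ S, ((((fun x => s * x) '' (↑F : Set G)) \ (↑F : Set G)).ncard : ℝ) <
        ε * (F.card : ℝ)

section basic

variable {G : Type*} [Group G]

open Classical in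
/-- the number of the points of `F` which `s` moves out of `F` -/
noncomputable def bd (s : G) (F : Finset G) : ℕ := (F.filter fun x => s * x ∉ F).card

theorem ncard_eq_bd (s : G) (F : Finset G) :
    (((fun x => s * x) '' (↑F : Set G)) \ (↑F : Set G)).ncard = bd s F := by
  classical
  have h : ((fun x => s * x) '' (↑F : Set G)) \ (↑F : Set G) =
      (((F.filter fun x => s * x ∉ F).image fun x => s * x : Finset G) : Set G) := by
    ext y
    simp only [Set.mem_sdiff, Set.mem_image, mem_coe, coe_image, coe_filter, Set.mem_ofPred_eq]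
    constructor
    · rintro ⟨⟨x, hx, rfl⟩, hy⟩
      exact ⟨x, ⟨hx, hy⟩, rfl⟩
    · rintro ⟨x, ⟨hx, hy⟩, rfl⟩
      exact ⟨⟨x, hx, rfl⟩, hy⟩
  rw [h, Set.ncard_coe_finset, card_image_of_injective _ (mul_right_injective s), bd]

theorem folner_iff : Folner G ↔ ∀ (S : Finset G) (ε : ℝ), 0 < ε →
    ∃ F : Finset G, F.Nonempty ∧ ∀ s ∈ S, (bd s F : ℝ) < ε * F.card := by
  unfold Folner
  simp only [ncard_eq_bd]

/-- one can take the sum over `S` -/
theorem folner_sum (h : Folner G) (S : Finset G) (ε : ℝ) (hε : 0 < ε) :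
    ∃ F : Finset G, F.Nonempty ∧ ((∑ s ∈ S, bd s F : ℕ) : ℝ) < ε * F.card := by
  obtain ⟨F, hF, h1⟩ := folner_iff.1 h S (ε / (S.card + 1)) (by positivity)
  refine ⟨F, hF, ?_⟩
  have hc : (0 : ℝ) < F.card := by exact_mod_cast card_pos.2 hF
  push_cast
  have h2 : (∑ s ∈ S, (bd s F : ℝ)) ≤ ∑ _s ∈ S, (ε / (S.card + 1) * F.card) :=
    sum_le_sum fun s hs => (h1 s hs).le
  rw [sum_const, nsmul_eq_mul] at h2
  refine lt_of_le_of_lt h2 ?_
  have h3 : (S.card : ℝ) * (ε / (S.card + 1) * F.card) =
      ε * F.card * (S.card / (S.card + 1)) := by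
    field_simp
  rw [h3]
  refine mul_lt_of_lt_one_right (mul_pos hε hc) ?_
  rw [div_lt_one (by positivity)]
  linarith

theorem folner_of_sum (h : ∀ (S : Finset G) (ε : ℝ), 0 < ε →
    ∃ F : Finset G, ((∑ s ∈ S, bd s F : ℕ) : ℝ) < ε * F.card) : Folner G := by
  rw [folner_iff]
  intro S ε hε
  obtain ⟨F, hF⟩ := h S ε hε
  have hne : F.Nonempty := by
    by_contra h0
    rw [not_nonempty_iff_eq_empty] at h0
    subst h0
    simp [bd] at hF
  refine ⟨F, hne, fun s hs => lt_of_le_of_lt ?_ hF⟩
  exact_mod_cast single_le_sum (f := fun s => bd s F) (fun _ _ => Nat.zero_le _) hs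

theorem folner_of_finite [Finite G] : Folner G := by
  have := Fintype.ofFinite G
  rw [folner_iff]
  intro S ε hε
  refine ⟨univ, univ_nonempty, fun s _ => ?_⟩
  have h : bd s (univ : Finset G) = 0 := by
    unfold bd
    simp
  rw [h]
  have : (0 : ℝ) < (univ : Finset G).card := by exact_mod_cast card_pos.2 univ_nonempty
  push_cast
  positivity

/-- subgroups -/
theorem folner_of_injective {H : Type*} [Group H] (φ : H →* G) (hφ : Function.Injective φ)
    (h : Folner G) : Folner H := by
  classical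
  refine folner_of_sum fun S ε hε => ?_
  obtain ⟨F, hF, h1⟩ := folner_sum h (S.map ⟨φ, hφ⟩) ε hε
  rw [sum_map] at h1
  simp only [Function.Embedding.coeFn_mk] at h1
  -- the cosets
  let q : G → Quotient (QuotientGroup.rightRel φ.range) := fun x => Quotient.mk _ x
  have hq : ∀ s x, q (φ s * x) = q x := by
    intro s x
    refine Quotient.sound (QuotientGroup.rightRel_apply.2 ⟨s⁻¹, ?_⟩)
    rw [map_inv]
    group
  have hq' : ∀ x y, q x = q y → ∃ s, φ s * x = y := by
    intro x y hxy
    obtain ⟨s, hs⟩ := QuotientGroup.rightRel_apply.1 (Quotient.exact hxy)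
    exact ⟨s, by rw [hs]; group⟩
  let Fi : Quotient (QuotientGroup.rightRel φ.range) → Finset G := fun i => F.filter (q · = i)
  have hcard : F.card = ∑ i ∈ F.image q, (Fi i).card :=
    card_eq_sum_card_image q F
  have hbd : ∀ s, bd (φ s) F = ∑ i ∈ F.image q, bd (φ s) (Fi i) := by
    intro s
    unfold bd
    rw [card_eq_sum_card_fiberwise (f := q) (t := F.image q)]
    · refine sum_congr rfl fun i _ => ?_
      congr 1
      ext x
      simp only [Fi, mem_filter, hq]
      tauto
    · intro x hx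
      exact mem_coe.2 (mem_image_of_mem q (mem_filter.1 (mem_coe.1 hx)).1)
  have h2 : ∑ i ∈ F.image q, ((∑ s ∈ S, bd (φ s) (Fi i) : ℕ) : ℝ) <
      ∑ i ∈ F.image q, ε * ((Fi i).card : ℝ) := by
    rw [← mul_sum]
    have e1 : (∑ i ∈ F.image q, ((∑ s ∈ S, bd (φ s) (Fi i) : ℕ) : ℝ)) =
        ((∑ s ∈ S, bd (φ s) F : ℕ) : ℝ) := by
      push_cast
      rw [sum_comm]
      refine sum_congr rfl fun s _ => ?_
      rw [hbd]
      push_cast
      rfl
    have e2 : (∑ i ∈ F.image q, ((Fi i).card : ℝ)) = (F.card : ℝ) := by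
      rw [hcard]
      push_cast
      rfl
    rw [e1, e2]
    exact h1
  obtain ⟨i, hi, h3⟩ := exists_lt_of_sum_lt h2
  obtain ⟨x0, hx0, rfl⟩ := mem_image.1 hi
  have hinj : Function.Injective fun s : H => φ s * x0 := fun a b hab =>
    hφ (mul_right_cancel hab)
  let F' : Finset H := (Fi (q x0)).preimage (fun s => φ s * x0) hinj.injOn
  have hF' : ∀ s, s ∈ F' ↔ φ s * x0 ∈ Fi (q x0) := fun s => mem_preimage
  have hmap : F'.map ⟨fun s => φ s * x0, hinj⟩ = Fi (q x0) := by
    ext y
    simp only [mem_map, Function.Embedding.coeFn_mk, hF']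
    constructor
    · rintro ⟨s, hs, rfl⟩
      exact hs
    · intro hy
      obtain ⟨s, hs⟩ := hq' x0 y (mem_filter.1 hy).2.symm
      exact ⟨s, by rw [hs]; exact hy, hs⟩
  refine ⟨F', ?_⟩
  have hc' : F'.card = (Fi (q x0)).card := by
    rw [← hmap, card_map]
  have hb' : ∀ s, bd s F' = bd (φ s) (Fi (q x0)) := by
    intro s
    unfold bd
    conv_rhs => rw [← hmap]
    rw [filter_map, card_map]
    congr 1
    ext x
    simp only [mem_filter, Function.comp, Function.Embedding.coeFn_mk, hmap]
    rw [hF' (s * x), map_mul, mul_assoc]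
  rw [hc']
  simp only [hb']
  exact h3

/-- unions: every finite set lies in a Foelner subgroup -/
theorem folner_of_local (h : ∀ S : Finset G, ∃ H : Subgroup G, (∀ s ∈ S, s ∈ H) ∧ Folner H) :
    Folner G := by
  classical
  rw [folner_iff]
  intro S ε hε
  obtain ⟨H, hSH, hH⟩ := h S
  obtain ⟨F, hF, h1⟩ := folner_iff.1 hH (S.subtype (· ∈ H)) ε hε
  refine ⟨F.map ⟨Subtype.val, Subtype.val_injective⟩, hF.map, fun s hs => ?_⟩
  have h2 := h1 ⟨s, hSH s hs⟩ (mem_subtype.2 hs)
  rw [card_map]
  have e : bd s (F.map ⟨Subtype.val, Subtype.val_injective⟩) = bd (⟨s, hSH s hs⟩ : H) F := by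
    unfold bd
    rw [filter_map, card_map]
    congr 1
    ext x
    simp only [mem_filter, Function.comp, Function.Embedding.coeFn_mk, mem_map]
    refine and_congr_right fun _ => not_congr ?_
    constructor
    · rintro ⟨y, hy, hyx⟩
      have : y = ⟨s, hSH s hs⟩ * x := Subtype.ext hyx
      rwa [← this]
    · intro hy
      exact ⟨_, hy, rfl⟩
  rw [e]
  exact h2

/-- extensions -/
theorem folner_of_surjective_ker {Q : Type*} [Group Q] (π : G →* Q)
    (hπ : Function.Surjective π) (hQ : Folner Q) (hN : Folner π.ker) : Folner G := by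
  classical
  rw [folner_iff]
  intro S ε hε
  obtain ⟨FQ, hFQ, h1⟩ := folner_iff.1 hQ (S.image π) (ε / 2) (by positivity)
  let σ : Q → G := Function.surjInv hπ
  have hσ : ∀ q, π (σ q) = q := Function.surjInv_eq hπ
  have hker : ∀ s q, (σ (π s * q))⁻¹ * s * σ q ∈ π.ker := by
    intro s q
    rw [MonoidHom.mem_ker, map_mul, map_mul, map_inv, hσ, hσ]
    group
  let ν : G → Q → π.ker := fun s q => ⟨_, hker s q⟩
  have hν : ∀ s q, s * σ q = σ (π s * q) * (ν s q : G) := by
    intro s q
    change s * σ q = σ (π s * q) * ((σ (π s * q))⁻¹ * s * σ q)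
    group
  let T : Finset π.ker := (S ×ˢ FQ).image fun p => ν p.1 p.2
  obtain ⟨FN, hFN, h2⟩ := folner_iff.1 hN T (ε / 2) (by positivity)
  let μ : Q × π.ker → G := fun p => σ p.1 * (p.2 : G)
  have hμ : Function.Injective μ := by
    rintro ⟨q, n⟩ ⟨q', n'⟩ h
    simp only [μ] at h
    have h3 := congrArg π h
    rw [map_mul, map_mul, hσ, hσ, MonoidHom.mem_ker.1 n.2, MonoidHom.mem_ker.1 n'.2, mul_one,
      mul_one] at h3
    subst h3
    have h4 := mul_left_cancel h
    rw [Subtype.ext h4]
  let F : Finset G := (FQ ×ˢ FN).map ⟨μ, hμ⟩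
  refine ⟨F, (hFQ.product hFN).map, fun s hs => ?_⟩
  have hcard : F.card = FQ.card * FN.card := by
    rw [card_map, card_product]
  have hbd : bd s F ≤ bd (π s) FQ * FN.card + ∑ q ∈ FQ, bd (ν s q) FN := by
    unfold bd
    rw [filter_map, card_map]
    have hsub : (FQ ×ˢ FN).filter ((fun x => s * x ∉ F) ∘ ⇑(⟨μ, hμ⟩ : Q × π.ker ↪ G)) ⊆
        ((FQ.filter fun q => π s * q ∉ FQ) ×ˢ FN) ∪
        FQ.biUnion (fun q => {q} ×ˢ (FN.filter fun n => ν s q * n ∉ FN)) := by
      rintro ⟨q, n⟩ hp
      obtain ⟨hp1, hp2⟩ := mem_filter.1 hp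
      obtain ⟨hq, hn⟩ := mem_product.1 hp1
      simp only at hq hn
      by_cases hc : π s * q ∈ FQ
      · refine mem_union_right _ (mem_biUnion.2 ⟨q, hq, mem_product.2 ⟨mem_singleton_self q,
          mem_filter.2 ⟨hn, fun hc' => hp2 ?_⟩⟩⟩)
        change s * (σ q * (n : G)) ∈ F
        rw [← mul_assoc, hν, mul_assoc]
        exact mem_map.2 ⟨(π s * q, ν s q * n), mem_product.2 ⟨hc, hc'⟩, rfl⟩
      · exact mem_union_left _ (mem_product.2 ⟨mem_filter.2 ⟨hq, hc⟩, hn⟩)
    refine (card_le_card hsub).trans ((card_union_le _ _).trans (add_le_add ?_ ?_))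
    · rw [card_product]
    · refine card_biUnion_le.trans (sum_le_sum fun q _ => ?_)
      rw [card_product, card_singleton, one_mul]
      exact le_of_eq (by congr)
  have hcQ : (0 : ℝ) < FQ.card := by exact_mod_cast card_pos.2 hFQ
  have hcN : (0 : ℝ) < FN.card := by exact_mod_cast card_pos.2 hFN
  have hb1 := h1 (π s) (mem_image_of_mem π hs)
  have hb2 : (∑ q ∈ FQ, (bd (ν s q) FN : ℝ)) ≤ FQ.card * (ε / 2 * FN.card) := by
    rw [← nsmul_eq_mul]
    refine sum_le_card_nsmul _ _ _ fun q hq => (h2 _ ?_).le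
    exact mem_image.2 ⟨(s, q), mem_product.2 ⟨hs, hq⟩, rfl⟩
  have hb3 : (bd s F : ℝ) ≤ bd (π s) FQ * FN.card + ∑ q ∈ FQ, (bd (ν s q) FN : ℝ) := by
    exact_mod_cast hbd
  rw [hcard]
  push_cast
  have hb4 : (bd (π s) FQ : ℝ) * FN.card < ε / 2 * FQ.card * FN.card :=
    mul_lt_mul_of_pos_right hb1 hcN
  nlinarith [hb3, hb2, hb4]

/-- extensions, not necessarily surjective -/
theorem folner_of_ker {Q : Type*} [Group Q] (π : G →* Q) (hQ : Folner Q)
    (hN : Folner π.ker) : Folner G := by
  refine folner_of_surjective_ker π.rangeRestrict π.rangeRestrict_surjective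
    (folner_of_injective π.range.subtype Subtype.val_injective hQ) ?_
  rw [MonoidHom.ker_rangeRestrict]
  exact hN

theorem folner_of_ker_of_injective {Q K : Type*} [Group Q] [Group K] (π : G →* Q)
    (hQ : Folner Q) (κ : π.ker →* K) (hκ : Function.Injective κ) (hK : Folner K) : Folner G :=
  folner_of_ker π hQ (folner_of_injective κ hκ hK)

theorem folner_congr {H : Type*} [Group H] (e : H ≃* G) (h : Folner G) : Folner H :=
  folner_of_injective e.toMonoidHom e.injective h

theorem folner_prod {H : Type*} [Group H] (hG : Folner G) (hH : Folner H) : Folner (G × H) := by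
  refine folner_of_ker_of_injective (MonoidHom.fst G H) hG
    ((MonoidHom.snd G H).comp (MonoidHom.fst G H).ker.subtype) ?_ hH
  rw [injective_iff_map_eq_one]
  rintro ⟨⟨x, y⟩, hx⟩ h
  have h1 : x = 1 := hx
  have h2 : y = 1 := h
  subst h1 h2
  rfl

/-- quotients -/
theorem folner_of_surjective {Q : Type*} [Group Q] (π : G →* Q) (hπ : Function.Surjective π)
    (h : Folner G) : Folner Q := by
  classical
  refine folner_of_sum fun S ε hε => ?_
  let σ : Q → G := Function.surjInv hπ
  have hσ : ∀ q, π (σ q) = q := Function.surjInv_eq hπ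
  have hσi : Function.Injective σ := Function.injective_surjInv hπ
  obtain ⟨F, hF, h1⟩ := folner_sum h (S.map ⟨σ, hσi⟩) ε hε
  rw [sum_map] at h1
  simp only [Function.Embedding.coeFn_mk] at h1
  -- the level sets of the image of the measure
  let f : Q → ℕ := fun q => (F.filter fun x => π x = q).card
  let L : ℕ → Finset Q := fun j => (F.image π).filter fun q => j < f q
  have hf : ∀ q, f q ≤ F.card := fun q => card_filter_le _ _
  have hfm : ∀ q, 0 < f q → q ∈ F.image π := by
    intro q hq
    obtain ⟨x, hx⟩ := card_pos.1 hq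
    obtain ⟨hx1, hx2⟩ := mem_filter.1 hx
    exact mem_image.2 ⟨x, hx1, hx2⟩
  have hL : ∀ j q, q ∈ L j ↔ j < f q := by
    intro j q
    simp only [L, mem_filter]
    exact ⟨fun hq => hq.2, fun hq => ⟨hfm q (by omega), hq⟩⟩
  have hcard : F.card = ∑ j ∈ range F.card, (L j).card := by
    conv_lhs => rw [card_eq_sum_card_image π F]
    have e1 : ∀ j, (L j).card = ∑ q ∈ F.image π, if j < f q then 1 else 0 := by
      intro j
      rw [card_filter]
    simp only [e1]
    rw [sum_comm]
    refine sum_congr rfl fun q _ => ?_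
    rw [← card_filter]
    have e2 : ((range F.card).filter fun j => j < f q) = range (f q) := by
      ext j
      simp only [mem_filter, mem_range]
      have := hf q
      omega
    rw [e2, card_range]
  have hbd : ∀ s ∈ S, ∑ j ∈ range F.card, bd s (L j) ≤ bd (σ s) F := by
    intro s _
    -- `Σ_q (f q - f (s q))^+ ≤` number of the points moved out
    have e1 : ∀ j, bd s (L j) = ∑ q ∈ F.image π, if j < f q ∧ ¬ j < f (s * q) then 1 else 0 := by
      intro j
      unfold bd
      rw [← card_filter]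
      congr 1
      ext q
      simp only [mem_filter, hL]
      constructor
      · rintro ⟨h2, h3⟩
        exact ⟨hfm q (by omega), h2, h3⟩
      · rintro ⟨_, h2, h3⟩
        exact ⟨h2, h3⟩
    simp only [e1]
    rw [sum_comm]
    have e3 : bd (σ s) F = ∑ q ∈ F.image π,
        (F.filter fun x => σ s * x ∉ F ∧ π x = q).card := by
      unfold bd
      rw [card_eq_sum_card_fiberwise (f := π) (t := F.image π)]
      · refine sum_congr rfl fun q _ => ?_
        rw [filter_filter]
      · intro x hx
        exact mem_coe.2 (mem_image_of_mem π (mem_filter.1 (mem_coe.1 hx)).1)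
    rw [e3]
    refine sum_le_sum fun q _ => ?_
    rw [← card_filter]
    have e4 : ((range F.card).filter fun j => j < f q ∧ ¬ j < f (s * q)) ⊆
        Ico (f (s * q)) (f q) := by
      intro j hj
      simp only [mem_filter, mem_range, mem_Ico] at hj ⊢
      omega
    refine (card_le_card e4).trans ?_
    rw [Nat.card_Ico, Nat.sub_le_iff_le_add]
    -- `f q ≤ #{x moved out} + f (s q)`
    have e5 : (F.filter fun x => π x = q) = (F.filter fun x => σ s * x ∉ F ∧ π x = q) ∪
        (F.filter fun x => σ s * x ∈ F ∧ π x = q) := by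
      ext x
      simp only [mem_filter, mem_union]
      tauto
    change (F.filter fun x => π x = q).card ≤ _
    rw [e5]
    refine (card_union_le _ _).trans (Nat.add_le_add_left ?_ _)
    refine card_le_card_of_injOn (fun x => σ s * x) ?_ (mul_right_injective _).injOn
    intro x hx
    obtain ⟨_, hx2, hx3⟩ := mem_filter.1 (mem_coe.1 hx)
    refine mem_coe.2 (mem_filter.2 ⟨hx2, ?_⟩)
    rw [map_mul, hσ, hx3]
  have h2 : ∑ j ∈ range F.card, ((∑ s ∈ S, bd s (L j) : ℕ) : ℝ) <
      ∑ j ∈ range F.card, ε * ((L j).card : ℝ) := by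
    rw [← mul_sum]
    have e1 : (∑ j ∈ range F.card, ((∑ s ∈ S, bd s (L j) : ℕ) : ℝ)) ≤
        ((∑ s ∈ S, bd (σ s) F : ℕ) : ℝ) := by
      rw [← Nat.cast_sum]
      refine Nat.cast_le.2 ?_
      rw [sum_comm]
      exact sum_le_sum hbd
    have e2 : (∑ j ∈ range F.card, ((L j).card : ℝ)) = (F.card : ℝ) := by
      rw [← Nat.cast_sum, ← hcard]
    rw [e2]
    exact lt_of_le_of_lt e1 h1
  obtain ⟨j, _, hj⟩ := exists_lt_of_sum_lt h2
  exact ⟨L j, hj⟩

end basic

/-- finite powers -/
theorem folner_pi {B ι : Type*} [Group B] [Finite ι] (hB : Folner B) : Folner (ι → B) := by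
  induction ι using Finite.induction_empty_option with
  | of_equiv e ih =>
    exact folner_congr (MulEquiv.arrowCongr e.symm (MulEquiv.refl B)) ih
  | h_empty => exact folner_of_finite
  | @h_option α _ ih =>
    refine folner_of_ker_of_injective
      (MonoidHom.mk' (fun (f : Option α → B) (a : α) => f (some a)) fun _ _ => rfl) ih
      ((Pi.evalMonoidHom (fun _ => B) none).comp (Subgroup.subtype _)) ?_ hB
    rw [injective_iff_map_eq_one]
    rintro ⟨f, hf⟩ h
    have h1 : ∀ a, f (some a) = 1 := fun a => congrFun hf a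
    have h2 : f none = 1 := h
    apply Subtype.ext
    funext x
    cases x with
    | none => exact h2
    | some a => exact h1 a

/-- wreath products with finite top group -/
theorem folner_wreath {D Q : Type*} [Group D] [Group Q] [Finite Q] (hD : Folner D) :
    Folner (RegularWreathProduct D Q) := by
  refine folner_of_ker_of_injective RegularWreathProduct.rightHom folner_of_finite
    (K := Q → D) (MonoidHom.mk' (fun w => (w : RegularWreathProduct D Q).left) ?_) ?_
    (folner_pi hD)
  · rintro ⟨a, ha⟩ ⟨b, hb⟩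
    have ha' : a.right = 1 := ha
    funext x
    simp only [Subgroup.coe_mul, RegularWreathProduct.mul_left, Pi.mul_apply, ha', inv_one,
      one_mul]
  · rw [injective_iff_map_eq_one]
    rintro ⟨a, ha⟩ h
    have ha' : a.right = 1 := ha
    have h' : a.left = 1 := h
    exact Subtype.ext (RegularWreathProduct.ext h' ha')

end Pool.Agent.AMB
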