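import Pool.Agent.Lib.AMB.Wreath

/-!
# Quotients of groups with a finite index subgroup with a given quotient
-/

set_option autoImplicit false

namespace Pool.Agent.AMB

open Finset SemidirectProduct

section amb

variable {X H : Type} [Group H] [Finite X]

/-- the monomial group -/
abbrev Mon (X H : Type) [Group H] : Type := (X → H) ⋊[mulAutArrow] (Equiv.Perm X)

theorem folner_Mon (hH : Folner H) : Folner (Mon X H) := by
  refine folner_of_ker_of_injective (rightHom : Mon X H →* Equiv.Perm X) folner_of_finite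
    (K := X → H) (MonoidHom.mk' (fun w => (w : Mon X H).left) ?_) ?_ (folner_pi hH)
  · rintro ⟨a, ha⟩ ⟨b, hb⟩
    have ha' : a.right = 1 := ha
    simp only [Subgroup.coe_mul, mul_left, ha', map_one, MulAut.one_apply]
  · rw [injective_iff_map_eq_one]
    rintro ⟨a, ha⟩ h
    have ha' : a.right = 1 := ha
    have h' : a.left = 1 := h
    exact Subtype.ext (SemidirectProduct.ext h' ha')

omit [Finite X] in
theorem Mon_pow {m : ℕ} (hH : ∀ h : H, h ^ m = 1) (w : Mon X H) :
    w ^ (Nat.card (Equiv.Perm X) * m) = 1 := by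
  refine pow_mul_of_ker (rightHom : Mon X H →* Equiv.Perm X) (fun q => pow_card_eq_one')
    (fun v hv => ?_) w
  have hv' : v.right = 1 := hv
  have e : v = inl v.left := SemidirectProduct.ext rfl hv'
  rw [e, ← map_pow]
  have : v.left ^ m = 1 := funext fun x => hH _
  rw [this, map_one]

end amb

section ind

variable {Γ H : Type} [Group Γ] [Group H] (Δ : Subgroup Γ) (θ : Δ →* H)

theorem out_mem (g : Γ) (x : Γ ⧸ Δ) : (Quotient.out x)⁻¹ * g * Quotient.out (g⁻¹ • x) ∈ Δ := by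
  have h1 : ((Quotient.out x : Γ) : Γ ⧸ Δ) = x := Quotient.out_eq x
  have h2 : ((Quotient.out (g⁻¹ • x) : Γ) : Γ ⧸ Δ) = g⁻¹ • x := Quotient.out_eq _
  rw [mul_assoc]
  refine QuotientGroup.eq.1 ?_
  rw [h1]
  change x = ((g • (Quotient.out (g⁻¹ • x)) : Γ) : Γ ⧸ Δ)
  rw [← smul_inv_smul g x]
  conv_lhs => rw [← h2]
  rw [inv_smul_smul]
  rfl

/-- the induced homomorphism -/
noncomputable def ind : Γ →* Mon (Γ ⧸ Δ) H :=
  MonoidHom.mk' (fun g => ⟨fun x => θ ⟨_, out_mem Δ g x⟩, MulAction.toPermHom Γ (Γ ⧸ Δ) g⟩) (by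
    intro g h
    refine SemidirectProduct.ext ?_ (map_mul _ _ _)
    funext x
    change θ _ = θ _ * θ ⟨_, out_mem Δ h (g⁻¹ • x)⟩
    rw [← map_mul]
    congr 1
    apply Subtype.ext
    simp only [Subgroup.coe_mul, mul_inv_rev, mul_smul]
    group)

theorem ind_left (g : Γ) (x : Γ ⧸ Δ) : (ind Δ θ g).left x = θ ⟨_, out_mem Δ g x⟩ := rfl

/-- a group with a finite index subgroup with a quotient `H` -/
theorem exists_quotient [Δ.FiniteIndex] (hθ : Function.Surjective θ) (hH : Infinite H)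
    (hF : Folner H) {m : ℕ} (hm : 0 < m) (hHm : ∀ h : H, h ^ m = 1) :
    ∃ (N : Subgroup Γ) (_ : N.Normal), Infinite (Γ ⧸ N) ∧ Monoid.ExponentExists (Γ ⧸ N) ∧
      Folner (Γ ⧸ N) := by
  have : Finite (Γ ⧸ Δ) := Subgroup.finite_quotient_of_finiteIndex
  let Φ := ind Δ θ
  have hinj : Function.Injective (QuotientGroup.kerLift Φ) := QuotientGroup.kerLift_injective Φ
  refine ⟨Φ.ker, inferInstance, ?_, ?_, ?_⟩
  · by_contra hfin
    rw [not_infinite_iff_finite] at hfin
    have h1 : Φ.ker.FiniteIndex := Subgroup.finiteIndex_of_finite_quotient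
    have h2 : (Φ.ker.subgroupOf Δ) ≤ θ.ker := by
      intro γ hγ
      have h3 : Φ (γ : Γ) = 1 := Subgroup.mem_subgroupOf.1 hγ
      have h4 := congrFun (congrArg SemidirectProduct.left h3) ((1 : Γ) : Γ ⧸ Δ)
      rw [ind_left] at h4
      simp only [one_left, Pi.one_apply] at h4
      -- the representative of the trivial coset
      have hd : Quotient.out ((1 : Γ) : Γ ⧸ Δ) ∈ Δ := by
        have h5 : ((Quotient.out ((1 : Γ) : Γ ⧸ Δ) : Γ) : Γ ⧸ Δ) = ((1 : Γ) : Γ ⧸ Δ) :=
          Quotient.out_eq _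
        have h6 := QuotientGroup.eq.1 h5.symm
        simpa using h6
      set d : Δ := ⟨_, hd⟩ with hddef
      have h7 : ((γ : Γ)⁻¹ • ((1 : Γ) : Γ ⧸ Δ)) = ((1 : Γ) : Γ ⧸ Δ) := by
        change (((γ : Γ)⁻¹ * 1 : Γ) : Γ ⧸ Δ) = ((1 : Γ) : Γ ⧸ Δ)
        rw [mul_one]
        refine QuotientGroup.eq.2 ?_
        rw [inv_inv, mul_one]
        exact γ.2
      have h8 : (⟨_, out_mem Δ (γ : Γ) ((1 : Γ) : Γ ⧸ Δ)⟩ : Δ) = d⁻¹ * γ * d := by
        apply Subtype.ext
        simp only [Subgroup.coe_mul, InvMemClass.coe_inv, hddef]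
        rw [h7]
      rw [h8, map_mul, map_mul, map_inv] at h4
      rw [MonoidHom.mem_ker]
      have h9 : (θ d)⁻¹ * θ γ = (θ d)⁻¹ := by
        rw [mul_eq_one_iff_eq_inv] at h4
        exact h4
      exact mul_eq_left.1 h9
    have h3 : (Φ.ker.subgroupOf Δ).FiniteIndex := inferInstance
    have h4 : θ.ker.FiniteIndex := Subgroup.finiteIndex_of_le h2
    have h5 : Finite (Δ ⧸ θ.ker) := Subgroup.finite_quotient_of_finiteIndex
    have h6 : Finite H := Finite.of_equiv _ (QuotientGroup.quotientKerEquivOfSurjective θ hθ).toEquiv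
    exact not_finite H
  · refine ⟨Nat.card (Equiv.Perm (Γ ⧸ Δ)) * m, Nat.mul_pos Nat.card_pos hm, fun g => hinj ?_⟩
    rw [map_pow, Mon_pow hHm, map_one]
  · exact folner_of_injective _ hinj (folner_Mon hF)

end ind

end Pool.Agent.AMB
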