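import Pool.Agent.Lib.AMB.Wreath

/-!
# Simple or residually finite
-/

set_option autoImplicit false

namespace Pool.Agent.AMB

open Finset

/-- a nontrivial finitely generated group has a simple quotient -/
theorem exists_simple_quotient (K : Type) [Group K] [Nontrivial K] (hK : Group.FG K) :
    ∃ (M : Subgroup K) (_ : M.Normal), IsSimpleGroup (K ⧸ M) := by
  obtain ⟨S, hS⟩ := hK.out
  have hz := zorn_subset_nonempty {A : Set K | ∃ M : Subgroup K, M.Normal ∧ M ≠ ⊤ ∧ (M : Set K) = A}
    (by
      intro c hc hchain hne
      have hc' : ∀ A ∈ c, ∃ M : Subgroup K, M.Normal ∧ M ≠ ⊤ ∧ (M : Set K) = A := hc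
      choose M hMn hMt hMA using hc'
      obtain ⟨A0, hA0⟩ := hne
      let U : Subgroup K :=
        { carrier := ⋃₀ c
          mul_mem' := by
            rintro x y ⟨A, hA, hx⟩ ⟨B, hB, hy⟩
            rcases hchain.total hA hB with h | h
            · refine ⟨B, hB, ?_⟩
              rw [← hMA B hB] at hy ⊢
              have hx' := h hx
              rw [← hMA B hB] at hx'
              exact mul_mem hx' hy
            · refine ⟨A, hA, ?_⟩
              rw [← hMA A hA] at hx ⊢
              have hy' := h hy
              rw [← hMA A hA] at hy'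
              exact mul_mem hx hy'
          one_mem' := by
            refine ⟨A0, hA0, ?_⟩
            rw [← hMA A0 hA0]
            exact one_mem _
          inv_mem' := by
            rintro x ⟨A, hA, hx⟩
            refine ⟨A, hA, ?_⟩
            rw [← hMA A hA] at hx ⊢
            exact inv_mem hx }
      have hU : ∀ x, x ∈ U ↔ ∃ A ∈ c, x ∈ A := fun x => Set.mem_sUnion
      refine ⟨⋃₀ c, ⟨U, ⟨?_⟩, ?_, rfl⟩, fun A hA => Set.subset_sUnion_of_mem hA⟩
      · intro x hx g
        obtain ⟨A, hA, hxA⟩ := (hU x).1 hx
        refine (hU _).2 ⟨A, hA, ?_⟩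
        rw [← hMA A hA] at hxA ⊢
        exact (hMn A hA).conj_mem x hxA g
      · intro htop
        -- the generators lie in one member
        have hall : ∀ s ∈ S, ∃ A ∈ c, s ∈ A := fun s _ =>
          (hU s).1 (by rw [htop]; exact Subgroup.mem_top s)
        have hone : ∃ A ∈ c, ∀ s ∈ S, s ∈ A := by
          classical
          clear hS
          induction S using Finset.induction_on with
          | empty => exact ⟨A0, hA0, by simp⟩
          | insert a T _ ih =>
            obtain ⟨A, hA, h1⟩ := ih fun s hs => hall s (mem_insert_of_mem hs)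
            obtain ⟨B, hB, h2⟩ := hall a (mem_insert_self a T)
            rcases hchain.total hA hB with h | h
            · refine ⟨B, hB, fun s hs => ?_⟩
              rcases mem_insert.1 hs with rfl | hs
              · exact h2
              · exact h (h1 s hs)
            · refine ⟨A, hA, fun s hs => ?_⟩
              rcases mem_insert.1 hs with rfl | hs
              · exact h h2
              · exact h1 s hs
        obtain ⟨A, hA, h1⟩ := hone
        refine hMt A hA ?_
        rw [eq_top_iff, ← hS, Subgroup.closure_le]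
        intro s hs
        rw [hMA A hA]
        exact h1 s (mem_coe.1 hs))
    (({1} : Set K)) ⟨⊥, inferInstance, bot_ne_top, Subgroup.coe_bot⟩
  obtain ⟨A, -, hmax⟩ := hz
  obtain ⟨M, hMn, hMt, rfl⟩ := hmax.prop
  refine ⟨M, hMn, ?_⟩
  have hnt : Nontrivial (K ⧸ M) := by
    rw [QuotientGroup.nontrivial_iff]
    exact hMt
  refine ⟨fun N hN => ?_⟩
  by_cases h : N.comap (QuotientGroup.mk' M) = ⊤
  · right
    rw [eq_top_iff]
    intro x _
    obtain ⟨y, rfl⟩ := QuotientGroup.mk'_surjective M x
    have : y ∈ N.comap (QuotientGroup.mk' M) := by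
      rw [h]
      exact Subgroup.mem_top y
    exact this
  · left
    have h1 : ((N.comap (QuotientGroup.mk' M) : Subgroup K) : Set K) ∈
        {A : Set K | ∃ M : Subgroup K, M.Normal ∧ M ≠ ⊤ ∧ (M : Set K) = A} :=
      ⟨_, hN.comap _, h, rfl⟩
    have h2 : (M : Set K) ⊆ (N.comap (QuotientGroup.mk' M) : Subgroup K) := by
      intro x hx
      have hx1 : QuotientGroup.mk' M x = 1 := (QuotientGroup.eq_one_iff x).2 hx
      change QuotientGroup.mk' M x ∈ N
      rw [hx1]
      exact one_mem _
    have h3 := hmax.le_of_ge h1 h2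
    rw [eq_bot_iff]
    intro x hx
    obtain ⟨y, rfl⟩ := QuotientGroup.mk'_surjective M x
    have h4 : y ∈ M := h3 hx
    rw [Subgroup.mem_bot]
    exact (QuotientGroup.eq_one_iff y).2 h4

/-- an infinite finitely generated Foelner group of bounded exponent gives one which is simple or
residually finite -/
theorem exists_simple_or_rf (G : Type) [Group G] (hfg : Group.FG G) (hinf : Infinite G)
    (hexp : Monoid.ExponentExists G) (hF : Folner G) :
    ∃ (Q : Type) (_ : Group Q), Group.FG Q ∧ Infinite Q ∧ Monoid.ExponentExists Q ∧ Folner Q ∧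
      (IsSimpleGroup Q ∨ ∀ g : Q, g ≠ 1 → ∃ N : Subgroup Q, N.Normal ∧ N.FiniteIndex ∧ g ∉ N) := by
  obtain ⟨n, hn, hexp⟩ := hexp
  let K : Subgroup G := sInf {N : Subgroup G | N.Normal ∧ N.FiniteIndex}
  have hKle : ∀ N : Subgroup G, N.Normal → N.FiniteIndex → K ≤ N := fun N h1 h2 =>
    sInf_le ⟨h1, h2⟩
  have hKn : K.Normal := by
    refine ⟨fun x hx g => ?_⟩
    rw [Subgroup.mem_sInf] at hx ⊢
    intro N hN
    exact hN.1.conj_mem x (hx N hN) g
  by_cases hq : Infinite (G ⧸ K)
  · refine ⟨G ⧸ K, inferInstance, Group.fg_of_surjective (QuotientGroup.mk'_surjective K), hq,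
      ⟨n, hn, fun g => ?_⟩, folner_of_surjective _ (QuotientGroup.mk'_surjective K) hF,
      Or.inr fun g hg => ?_⟩
    · obtain ⟨x, rfl⟩ := QuotientGroup.mk'_surjective K g
      rw [← map_pow, hexp, map_one]
    · obtain ⟨x, rfl⟩ := QuotientGroup.mk'_surjective K g
      have hx : x ∉ K := fun h => hg ((QuotientGroup.eq_one_iff x).2 h)
      obtain ⟨N, ⟨hN1, hN2⟩, hxN⟩ : ∃ N : Subgroup G, (N.Normal ∧ N.FiniteIndex) ∧ x ∉ N := by
        by_contra hc
        push Not at hc
        exact hx ((Subgroup.mem_sInf).2 fun N hN => hc N hN)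
      have hker : (QuotientGroup.mk' K).ker ≤ N := by
        rw [QuotientGroup.ker_mk']
        exact hKle N hN1 hN2
      refine ⟨N.map (QuotientGroup.mk' K), hN1.map _ (QuotientGroup.mk'_surjective K), ⟨?_⟩, ?_⟩
      · rw [Subgroup.index_map_eq N (QuotientGroup.mk'_surjective K) hker]
        exact hN2.index_ne_zero
      · intro h
        obtain ⟨y, hy, hyx⟩ := Subgroup.mem_map.1 h
        refine hxN ?_
        have h1 : y⁻¹ * x ∈ K := QuotientGroup.eq.1 hyx
        have h2 := mul_mem hy (hKle N hN1 hN2 h1)
        rwa [mul_inv_cancel_left] at h2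
  · rw [not_infinite_iff_finite] at hq
    have hKf : K.FiniteIndex := Subgroup.finiteIndex_of_finite_quotient
    have hKinf : Infinite K := by
      by_contra hfin
      rw [not_infinite_iff_finite] at hfin
      have : Finite G := Finite.of_equiv _ (Subgroup.groupEquivQuotientProdSubgroup (s := K)).symm
      exact not_finite G
    have hKfg : Group.FG K := Subgroup.fg_of_index_ne_zero K
    have hKnt : Nontrivial K := inferInstance
    -- no subgroups of finite index
    have hno : ∀ L : Subgroup K, L.FiniteIndex → L = ⊤ := by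
      intro L hL
      have h1 : (L.map K.subtype).FiniteIndex := by
        refine ⟨?_⟩
        rw [Subgroup.index_map_subtype]
        exact mul_ne_zero hL.index_ne_zero hKf.index_ne_zero
      have h2 := hKle (L.map K.subtype).normalCore (Subgroup.normalCore_normal _) inferInstance
      rw [eq_top_iff]
      intro x _
      obtain ⟨y, hy, hyx⟩ := Subgroup.mem_map.1
        ((Subgroup.normalCore_le _) (h2 x.2))
      have : y = x := Subtype.ext hyx
      rwa [← this]
    obtain ⟨M, hMn, hMs⟩ := exists_simple_quotient K hKfg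
    refine ⟨K ⧸ M, inferInstance, Group.fg_of_surjective (QuotientGroup.mk'_surjective M), ?_,
      ⟨n, hn, fun g => ?_⟩, folner_of_surjective _ (QuotientGroup.mk'_surjective M)
        (folner_of_injective K.subtype Subtype.val_injective hF), Or.inl hMs⟩
    · by_contra hfin
      rw [not_infinite_iff_finite] at hfin
      have h1 := hno M Subgroup.finiteIndex_of_finite_quotient
      subst h1
      have h2 := hMs.toNontrivial
      rw [QuotientGroup.nontrivial_iff] at h2
      exact h2 rfl
    · obtain ⟨x, rfl⟩ := QuotientGroup.mk'_surjective M g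
      rw [← map_pow]
      have : x ^ n = 1 := Subtype.ext (hexp x)
      rw [this, map_one]

end Pool.Agent.AMB
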