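import Pool.Agent.Lib.AMB.Two
import Pool.Agent.Lib.AMB.Large
import Pool.Agent.Lib.AMB.Simple

/-!
# The equivalences
-/

set_option autoImplicit false

namespace Pool.Agent.AMB

open Finset

/-! ### the groups with a given sequence -/

section seq

variable {A G : Type} [Group A] [Group G] {n : ℕ}

/-- the group of the sequence `a` -/
noncomputable def Es (n : ℕ) (t : ℕ → G) (a : ℕ → A) :
    Subgroup (RegularWreathProduct (Bn A n) G) := EE t (fun i => ha n (a i)) (sg A n)

theorem Bn_pow [NeZero n] (hA : ∀ a : A, a ^ n = 1) (b : Bn A n) : b ^ (n * n) = 1 := by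
  refine wreath_pow (fun c => ?_) hA b
  rw [← ofAdd_toAdd c, ← ofAdd_nsmul, nsmul_eq_mul]
  simp

theorem folner_Es [NeZero n] {t : ℕ → G} (ht : Sparse t) (a : ℕ → A) (hG : Folner G)
    (hA : Folner A) (hAn : ∀ a : A, a ^ n = 1) : Folner (Es n t a) :=
  folner_EE ht _ _ hG (folner_wreath hA) (n := n * n)
    (Nat.mul_pos (NeZero.pos n) (NeZero.pos n)) (Bn_pow hAn)

theorem Es_pow [NeZero n] {t : ℕ → G} (a : ℕ → A) {m : ℕ} (hG : ∀ g : G, g ^ m = 1)
    (hAn : ∀ a : A, a ^ n = 1) (x : Es n t a) : x ^ (m * (n * n)) = 1 :=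
  Subtype.ext (wreath_pow hG (Bn_pow hAn) (x : RegularWreathProduct (Bn A n) G))

/-- the top group in `Es` -/
noncomputable def top (n : ℕ) (t : ℕ → G) (a : ℕ → A) : G →* Es n t a :=
  (RegularWreathProduct.inl : G →* RegularWreathProduct (Bn A n) G).codRestrict _
    (inl_mem t _ _)

theorem top_injective (t : ℕ → G) (a : ℕ → A) : Function.Injective (top n t a) := by
  intro g h hgh
  have h1 := congrArg (fun x : Es n t a => (x : RegularWreathProduct (Bn A n) G).right) hgh
  exact h1

/-- the sparse generator -/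
noncomputable def gf (n : ℕ) (t : ℕ → G) (a : ℕ → A) : Es n t a := ⟨_, sp_mem t _ _⟩

/-- the delta generator -/
noncomputable def gd (n : ℕ) (t : ℕ → G) (a : ℕ → A) : Es n t a := ⟨_, dl_mem t _ _⟩

theorem mk_Es [NeZero n] {t : ℕ → G} (ht : Sparse t) (a : ℕ → A) (hAn : ∀ a : A, a ^ n = 1)
    (i : ℕ) : ((mk (top n t a) (gf n t a) (gd n t a) (t i) : Es n t a) :
      RegularWreathProduct (Bn A n) G) = dlH (cst n (a i)) := by
  have h := mk_map (Es n t a).subtype (top n t a) (gf n t a) (gd n t a) (t i)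
  refine h.symm.trans ?_
  change mk RegularWreathProduct.inl (fn (sp t fun i => ha n (a i))) (fn (dl (sg A n))) (t i) = _
  rw [mk_eq, sp_apply ht, comm_ha_sg hAn, dlH_apply]

theorem exists_gens_Es [Group.FG G] : ∃ r : ℕ, ∀ (t : ℕ → G) (a : ℕ → A),
    ∃ e : ℕ → Es n t a, Subgroup.closure (e '' Set.Iio r) = ⊤ := by
  obtain ⟨r, e, he⟩ := exists_gens (E := G) inferInstance
  refine ⟨r + 2, fun t a => ⟨fun i => if i < r then top n t a (e i) else
    if i = r then gf n t a else gd n t a, ?_⟩⟩
  set e' : ℕ → Es n t a := fun i => if i < r then top n t a (e i) else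
    if i = r then gf n t a else gd n t a with he'
  set L := Subgroup.closure (e' '' Set.Iio (r + 2)) with hL
  have h1 : ∀ i < r, top n t a (e i) ∈ L := by
    intro i hi
    refine Subgroup.subset_closure ⟨i, by simp only [Set.mem_Iio]; omega, ?_⟩
    simp only [he', if_pos hi]
  have h2 : gf n t a ∈ L := by
    refine Subgroup.subset_closure ⟨r, by simp only [Set.mem_Iio]; omega, ?_⟩
    simp [he']
  have h3 : gd n t a ∈ L := by
    refine Subgroup.subset_closure ⟨r + 1, by simp only [Set.mem_Iio]; omega, ?_⟩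
    simp [he']
  have h4 : ∀ g, top n t a g ∈ L := by
    have h5 : (⊤ : Subgroup G) ≤ L.comap (top n t a) := by
      rw [← he, Subgroup.closure_le]
      rintro _ ⟨i, hi, rfl⟩
      exact h1 i hi
    exact fun g => h5 (Subgroup.mem_top g)
  -- everything
  have h6 : Es n t a ≤ L.map (Es n t a).subtype := by
    conv_lhs => unfold Es EE
    rw [Subgroup.closure_le]
    rintro w (⟨g, rfl⟩ | hw)
    · exact ⟨top n t a g, h4 g, rfl⟩
    · rcases hw with hw | hw
      · rw [hw]
        exact ⟨gf n t a, h2, rfl⟩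
      · rw [Set.mem_singleton_iff.1 hw]
        exact ⟨gd n t a, h3, rfl⟩
  rw [eq_top_iff]
  intro x _
  obtain ⟨y, hy, hyx⟩ := h6 x.2
  have : y = x := Subtype.ext hyx
  rwa [← this]

end seq

/-! ### embeddings of countable groups -/

/-- the base group in `Es` -/
theorem exists_embedding {A G : Type} [Group A] [Group G] [Countable A] [Infinite G]
    (hfg : Group.FG G) {n m : ℕ} (hn : 0 < n) (hm : 0 < m) (hAn : ∀ a : A, a ^ n = 1)
    (hGm : ∀ g : G, g ^ m = 1) (hA : Folner A) (hG : Folner G) :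
    ∃ (H : Type) (_ : Group H), (∃ x y : H, Subgroup.closure {x, y} = ⊤) ∧
      Monoid.ExponentExists H ∧ Folner H ∧ ∃ φ : A →* H, Function.Injective φ := by
  have : NeZero n := ⟨hn.ne'⟩
  obtain ⟨t, ht⟩ := exists_sparse (G := G)
  obtain ⟨a, ha⟩ := exists_surjective_nat A
  have hE := fg_EE t (fun i => Pool.Agent.AMB.ha n (a i)) (sg A n)
  obtain ⟨H, hH, ⟨k, hk, h1⟩, h2, h3, φ, hφ⟩ := exists_two (E := Es n t a) hE
    (n := m * (n * n)) (by positivity) (Es_pow a hGm hAn) (folner_Es ht a hG hA hAn)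
  have hmem : ∀ x : A, (dlH.comp (cst n) : A →* RegularWreathProduct (Bn A n) G) x ∈
      Es n t a := by
    intro x
    obtain ⟨i, rfl⟩ := ha x
    rw [MonoidHom.comp_apply, ← mk_Es ht a hAn i]
    exact Subtype.property _
  refine ⟨H, hH, h3, ⟨k, hk, h1⟩, h2, φ.comp (MonoidHom.codRestrict _ _ hmem),
    hφ.comp fun x y h => ?_⟩
  exact cst_injective (dlH_injective (congrArg (fun z : Es n t a =>
    (z : RegularWreathProduct (Bn A n) G)) h))

/-- a countable elementary abelian group -/
theorem folner_elementary : Folner (Multiplicative (ℕ →₀ ZMod 2)) := by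
  refine folner_of_local fun S => ⟨Subgroup.closure S, fun s hs => Subgroup.subset_closure hs, ?_⟩
  have hfg : Group.FG (Subgroup.closure (S : Set (Multiplicative (ℕ →₀ ZMod 2)))) :=
    (Group.fg_iff_subgroup_fg _).2 ⟨S, rfl⟩
  have h : Finite (Subgroup.closure (S : Set (Multiplicative (ℕ →₀ ZMod 2)))) := by
    refine CommGroup.finite_of_fg_isMulTorsion _ fun g =>
      isOfFinOrder_iff_pow_eq_one.2 ⟨2, two_pos, ?_⟩
    apply Subtype.ext
    have key : ∀ f : ℕ →₀ ZMod 2, 2 • f = 0 := by
      intro f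
      ext i
      simp only [Finsupp.smul_apply, Finsupp.coe_zero, Pi.zero_apply]
      generalize f i = z
      revert z
      decide
    exact key (Multiplicative.toAdd (g : Multiplicative (ℕ →₀ ZMod 2)))
  exact folner_of_finite

/-! ### a continuum of groups -/

theorem countable_hom {G Q : Type} [Group G] [Group Q] [Group.FG G] [Countable Q] :
    Countable (G →* Q) := by
  obtain ⟨r, e, he⟩ := exists_gens (E := G) inferInstance
  have h1 : Function.Injective fun (u : G →* Q) (i : Fin r) => u (e i) := by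
    intro u v h
    refine MonoidHom.eq_of_eqOn_dense he ?_
    rintro _ ⟨i, hi, rfl⟩
    exact congrFun h ⟨i, hi⟩
  exact h1.countable

theorem countable_of_two {H : Type} [Group H] {x y : H} (h : Subgroup.closure {x, y} = ⊤) :
    Countable H := by
  have hs : Function.Surjective (FreeGroup.lift ![x, y]) := by
    rw [← MonoidHom.range_eq_top, eq_top_iff, ← h, Subgroup.closure_le]
    rintro z (rfl | hz)
    · exact ⟨FreeGroup.of 0, by simp⟩
    · rw [Set.mem_singleton_iff.1 hz]
      exact ⟨FreeGroup.of 1, by simp⟩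
  exact hs.countable

/-- an equivalence relation on `Set ℕ` with countable classes has a continuum of classes -/
theorem exists_family (r : Setoid (Set ℕ)) (hr : ∀ S, {T | r S T}.Countable) :
    ∃ f : Set ℕ → Set ℕ, ∀ S T, S ≠ T → ¬ r (f S) (f T) := by
  classical
  have hfib : ∀ q : Quotient r, Countable {S : Set ℕ // Quotient.mk r S = q} := by
    intro q
    obtain ⟨S, rfl⟩ := Quotient.exists_rep q
    have h1 := (hr S).to_subtype
    refine Function.Injective.countable (f := fun T : {T : Set ℕ // Quotient.mk r T =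
      Quotient.mk r S} => (⟨T.1, r.symm' (Quotient.exact T.2)⟩ : {T | r S T})) ?_
    intro T T' h
    exact Subtype.ext (congrArg (fun z : {T | r S T} => (z : Set ℕ)) h)
  have hinj : ∀ q : Quotient r, ∃ g : {S : Set ℕ // Quotient.mk r S = q} → ℕ,
      Function.Injective g := fun q => (hfib q).exists_injective_nat
  choose g hg using hinj
  have h1 : Function.Injective fun S : Set ℕ => (Quotient.mk r S, g _ ⟨S, rfl⟩) := by
    intro S T h
    simp only [Prod.mk.injEq] at h
    obtain ⟨h2, h3⟩ := h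
    have key : ∀ q q' (hq : Quotient.mk r S = q) (hq' : Quotient.mk r T = q'), q = q' →
        g q ⟨S, hq⟩ = g q' ⟨T, hq'⟩ → S = T := by
      intro q q' hq hq' e h
      subst e
      exact congrArg Subtype.val (hg q h)
    exact key _ _ rfl rfl h2 h3
  have h2 : Cardinal.continuum ≤ Cardinal.mk (Quotient r) := by
    by_contra hlt
    rw [not_le] at hlt
    have h3 := Cardinal.mk_le_of_injective h1
    rw [Cardinal.mk_prod, Cardinal.lift_id, Cardinal.lift_id, Cardinal.mk_nat,
      Cardinal.mk_set, Cardinal.mk_nat, Cardinal.two_power_aleph0] at h3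
    exact absurd h3 (not_le.2 (Cardinal.mul_lt_of_lt Cardinal.aleph0_le_continuum hlt
      Cardinal.aleph0_lt_continuum))
  have h3 : Cardinal.mk (Set ℕ) ≤ Cardinal.mk (Quotient r) := by
    rw [Cardinal.mk_set, Cardinal.mk_nat, Cardinal.two_power_aleph0]
    exact h2
  obtain ⟨⟨f, hf⟩⟩ := Cardinal.le_def _ _ |>.1 h3
  refine ⟨fun S => (f S).out, fun S T hST h => hST (hf ?_)⟩
  have h4 := Quotient.sound h
  rwa [Quotient.out_eq, Quotient.out_eq] at h4

theorem exists_continuum {G : Type} [Group G] [Infinite G] (hfg : Group.FG G) {m : ℕ}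
    (hm : 0 < m) (hGm : ∀ g : G, g ^ m = 1) (hG : Folner G) :
    ∃ n : ℕ, 0 < n ∧ ∃ (H : Set ℕ → Type) (_ : ∀ S, Group (H S)),
      (∀ S T, S ≠ T → IsEmpty (H S ≃* H T)) ∧
      ∀ S, (∃ x y : H S, Subgroup.closure {x, y} = ⊤) ∧ Infinite (H S) ∧
        (∀ h : H S, h ^ n = 1) ∧ Folner (H S) := by
  classical
  obtain ⟨t, ht⟩ := exists_sparse (G := G)
  let A := Multiplicative (ZMod 2)
  have hA2 : ∀ a : A, a ^ 2 = 1 := by decide
  let a : Set ℕ → ℕ → A := fun S i => if i ∈ S then Multiplicative.ofAdd 1 else 1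
  have ha : ∀ S i, a S i ≠ 1 ↔ i ∈ S := by
    intro S i
    by_cases h : i ∈ S
    · simp only [a, if_pos h, h, iff_true]
      decide
    · simp only [a, if_neg h, h, ne_eq, not_true_eq_false]
  obtain ⟨r, hr⟩ := exists_gens_Es (A := A) (G := G) (n := 2)
  have key : ∀ S : Set ℕ, ∃ (H : Type) (_ : Group H),
      (∀ h : H, h ^ (2 ^ (r + 2) * ((m * (2 * 2)) * (m * (2 * 2)))) = 1) ∧
      Folner H ∧ (∃ x y : H, Subgroup.closure {x, y} = ⊤) ∧
      ∃ φ : Es 2 t (a S) →* H, Function.Injective φ := by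
    intro S
    obtain ⟨e, he⟩ := hr t (a S)
    exact exists_two' r e he (n := m * (2 * 2)) (by positivity) (Es_pow (a S) hGm hA2)
      (folner_Es ht (a S) hG folner_of_finite hA2)
  choose H hH h1 h2 h3 φ hφ using key
  -- the code
  let code : ∀ S, (G →* H S) × H S × H S → Set ℕ := fun S p =>
    {i | mk p.1 p.2.1 p.2.2 (t i) ≠ 1}
  have hcode : ∀ S T (ψ : Es 2 t (a T) →* H S), Function.Injective ψ →
      code S (ψ.comp (top 2 t (a T)), ψ (gf 2 t (a T)), ψ (gd 2 t (a T))) = T := by
    intro S T ψ hψ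
    ext i
    simp only [code, Set.mem_ofPred_eq]
    rw [mk_map, ← map_one ψ, hψ.ne_iff, ← ha T i, not_iff_not]
    have h4 := mk_Es ht (a T) hA2 i
    constructor
    · intro h5
      rw [h5] at h4
      have h6 : (dlH (cst 2 (a T i)) : RegularWreathProduct (Bn A 2) G) =
          dlH (cst 2 1) := by
        rw [← h4, map_one, map_one]
        rfl
      exact cst_injective (dlH_injective h6)
    · intro h5
      apply Subtype.ext
      rw [h4, h5, map_one, map_one]
      rfl
  have hcount : ∀ S, Countable (H S) := by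
    intro S
    obtain ⟨x, y, hxy⟩ := h3 S
    exact countable_of_two hxy
  let rel : Setoid (Set ℕ) :=
    { r := fun S T => Nonempty (H S ≃* H T)
      iseqv := ⟨fun S => ⟨MulEquiv.refl _⟩, fun ⟨e⟩ => ⟨e.symm⟩, fun ⟨e⟩ ⟨e'⟩ => ⟨e.trans e'⟩⟩ }
  obtain ⟨f, hf⟩ := exists_family rel (by
    intro S
    have h4 := countable_hom (G := G) (Q := H S)
    refine (Set.countable_range (code S)).mono ?_
    rintro T ⟨e⟩
    exact ⟨_, hcode S T (e.symm.toMonoidHom.comp (φ T)) (e.symm.injective.comp (hφ T))⟩)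
  refine ⟨_, ?_, fun S => H (f S), fun S => hH (f S), fun S T hST => ?_, fun S =>
    ⟨h3 (f S), ?_, h1 (f S), h2 (f S)⟩⟩
  · positivity
  · rw [← not_nonempty_iff]
    exact hf S T hST
  · exact Infinite.of_injective _ ((hφ (f S)).comp (top_injective t (a (f S))))

end Pool.Agent.AMB
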