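import Pool.Agent.Lib.AMB.Embed

/-!
# Embedding of a finitely generated group in a group with two generators
-/

set_option autoImplicit false

namespace Pool.Agent.AMB

open Finset

/-- if `2 ^ k + 2 ^ r = 2 ^ l + 2 ^ i` with `i ≠ r` then `k = i` -/
theorem two_pow_add {k r l i : ℕ} (h : 2 ^ k + 2 ^ r = 2 ^ l + 2 ^ i) (hir : i ≠ r) : k = i := by
  have key : ∀ a b c d : ℕ, a ≤ b → c ≤ d → 2 ^ a + 2 ^ b = 2 ^ c + 2 ^ d → a = c ∧ b = d := by
    intro a b c d hab hcd h
    have hb : b = d := by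
      rcases lt_trichotomy b d with h1 | h1 | h1
      · exfalso
        have h2 : 2 ^ a ≤ 2 ^ b := Nat.pow_le_pow_right (by omega) hab
        have h3 : 2 ^ (b + 1) ≤ 2 ^ d := Nat.pow_le_pow_right (by omega) h1
        have h4 : 0 < 2 ^ c := pow_pos (by omega) c
        rw [pow_succ] at h3
        omega
      · exact h1
      · exfalso
        have h2 : 2 ^ c ≤ 2 ^ d := Nat.pow_le_pow_right (by omega) hcd
        have h3 : 2 ^ (d + 1) ≤ 2 ^ b := Nat.pow_le_pow_right (by omega) h1
        have h4 : 0 < 2 ^ a := pow_pos (by omega) a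
        rw [pow_succ] at h3
        omega
    subst hb
    exact ⟨Nat.pow_right_injective (le_refl 2) (by simpa using h), rfl⟩
  rcases le_total k r with h1 | h1 <;> rcases le_total l i with h2 | h2
  · exact absurd (key k r l i h1 h2 h).2.symm hir
  · exact (key k r i l h1 h2 (by rw [h, add_comm])).1
  · have := key r k l i h1 h2 (by rw [add_comm, h])
    exact this.2
  · exact absurd (key r k i l h1 h2 (by rw [add_comm, h, add_comm])).1.symm hir

/-- the cyclic group -/
abbrev Cy (M : ℕ) : Type := Multiplicative (ZMod M)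

section two

variable {E : Type} [Group E]

/-- a group with `r` generators is contained in a group with two generators, the exponent
depends on `r` and on the exponent only -/
theorem exists_two' (r : ℕ) (e : ℕ → E) (he : Subgroup.closure (e '' Set.Iio r) = ⊤) {n : ℕ}
    (hn : 0 < n) (hEn : ∀ e : E, e ^ n = 1) (hF : Folner E) :
    ∃ (H : Type) (_ : Group H), (∀ h : H, h ^ (2 ^ (r + 2) * (n * n)) = 1) ∧
      Folner H ∧ (∃ x y : H, Subgroup.closure {x, y} = ⊤) ∧
      ∃ φ : E →* H, Function.Injective φ := by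
  classical
  have : NeZero n := ⟨hn.ne'⟩
  set M := 2 ^ (r + 2) with hM
  have : NeZero M := ⟨by positivity⟩
  let p : ℕ → Cy M := fun k => Multiplicative.ofAdd ((2 ^ k : ℕ) : ZMod M)
  have hp : ∀ k l, k ≤ r → l ≤ r → ∀ i, i < r → p k * (p i)⁻¹ = p l * (p r)⁻¹ → k = i := by
    intro k l hk hl i hi h
    have h1 : (((2 ^ k + 2 ^ r : ℕ)) : ZMod M) = ((2 ^ l + 2 ^ i : ℕ) : ZMod M) := by
      have h2 := congrArg Multiplicative.toAdd h
      simp only [p, toAdd_mul, toAdd_inv, toAdd_ofAdd] at h2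
      push_cast at h2 ⊢
      linear_combination h2
    rw [ZMod.natCast_eq_natCast_iff'] at h1
    have h3 : ∀ a b, a ≤ r → b ≤ r → 2 ^ a + 2 ^ b < M := by
      intro a b ha hb
      have h4 : 2 ^ a ≤ 2 ^ r := Nat.pow_le_pow_right (by omega) ha
      have h5 : 2 ^ b ≤ 2 ^ r := Nat.pow_le_pow_right (by omega) hb
      have h6 : 0 < 2 ^ r := pow_pos (by omega) r
      rw [hM, pow_add]
      omega
    rw [Nat.mod_eq_of_lt (h3 k r hk le_rfl), Nat.mod_eq_of_lt (h3 l i hl hi.le)] at h1
    exact two_pow_add h1 hi.ne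
  have hpinj : ∀ k l, k ≤ r → l ≤ r → p k = p l → k = l := by
    intro k l hk hl h
    have h1 := congrArg Multiplicative.toAdd h
    simp only [p, toAdd_ofAdd] at h1
    rw [ZMod.natCast_eq_natCast_iff'] at h1
    have h3 : ∀ a, a ≤ r → 2 ^ a < M := by
      intro a ha
      have h4 : 2 ^ a ≤ 2 ^ r := Nat.pow_le_pow_right (by omega) ha
      have h6 : 0 < 2 ^ r := pow_pos (by omega) r
      rw [hM, pow_add]
      omega
    rw [Nat.mod_eq_of_lt (h3 k hk), Nat.mod_eq_of_lt (h3 l hl)] at h1
    exact Nat.pow_right_injective (le_refl 2) h1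
  -- the function
  let b : Cy M → Bn E n := fun x =>
    if x = p r then sg E n else if h : ∃ i, i < r ∧ x = p i then ha n (e h.choose) else 1
  have hbr : b (p r) = sg E n := by
    simp only [b, if_true]
  have hbi : ∀ i, i < r → b (p i) = ha n (e i) := by
    intro i hi
    have h1 : p i ≠ p r := fun h => absurd (hpinj i r hi.le le_rfl h) hi.ne
    have h2 : ∃ j, j < r ∧ p i = p j := ⟨i, hi, rfl⟩
    simp only [b, if_neg h1, dif_pos h2]
    rw [← hpinj i _ hi.le h2.choose_spec.1.le h2.choose_spec.2]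
  have hb1 : ∀ x, b x ≠ 1 → ∃ k, k ≤ r ∧ x = p k := by
    intro x hx
    by_cases h1 : x = p r
    · exact ⟨r, le_rfl, h1⟩
    · by_cases h2 : ∃ i, i < r ∧ x = p i
      · obtain ⟨i, hi, h3⟩ := h2
        exact ⟨i, hi.le, h3⟩
      · exact absurd (by simp only [b, if_neg h1, dif_neg h2]) hx
  let H : Subgroup (RegularWreathProduct (Bn E n) (Cy M)) :=
    Subgroup.closure {RegularWreathProduct.inl (Multiplicative.ofAdd 1), fn b}
  have hinl : ∀ c : Cy M, (RegularWreathProduct.inl c : RegularWreathProduct (Bn E n) (Cy M)) ∈ H := by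
    intro c
    have h1 : c = (Multiplicative.ofAdd (1 : ZMod M)) ^ (Multiplicative.toAdd c).val := by
      rw [← ofAdd_nsmul, nsmul_eq_mul, mul_one, ZMod.natCast_zmod_val, ofAdd_toAdd]
    rw [h1, map_pow]
    exact pow_mem (Subgroup.subset_closure (Set.mem_insert _ _)) _
  have hfn : (fn b : RegularWreathProduct (Bn E n) (Cy M)) ∈ H :=
    Subgroup.subset_closure (Set.mem_insert_of_mem _ (Set.mem_singleton _))
  have htr : ∀ c : Cy M, (fn (tr c b) : RegularWreathProduct (Bn E n) (Cy M)) ∈ H := by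
    intro c
    rw [← conj_fn]
    exact mul_mem (mul_mem (hinl c) hfn) (inv_mem (hinl c))
  -- the delta functions
  have hdl : ∀ i, i < r → (fn (dl (cst n (e i))) : RegularWreathProduct (Bn E n) (Cy M)) ∈ H := by
    intro i hi
    have h1 := comm_eq_dl (tr (p i)⁻¹ b) (tr (p r)⁻¹ b) (by
      intro x hx
      by_contra hc
      push Not at hc
      obtain ⟨k, hk, hxk⟩ := hb1 _ hc.1
      obtain ⟨l, hl, hxl⟩ := hb1 _ hc.2
      rw [inv_inv] at hxk hxl
      have h2 : p k * (p i)⁻¹ = p l * (p r)⁻¹ := by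
        rw [← hxk, ← hxl, mul_comm (p i), mul_comm (p r), mul_inv_cancel_right,
          mul_inv_cancel_right]
      have h3 := hp k l hk hl i hi h2
      subst h3
      exact hx (by simpa using hxk))
    have h2 : tr (p i)⁻¹ b 1 = ha n (e i) := by
      simp only [tr, inv_inv, mul_one]
      exact hbi i hi
    have h3 : tr (p r)⁻¹ b 1 = sg E n := by
      simp only [tr, inv_inv, mul_one]
      exact hbr
    rw [h2, h3, comm_ha_sg hEn] at h1
    rw [← h1, map_mul, map_mul, map_mul, map_inv, map_inv]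
    exact mul_mem (mul_mem (mul_mem (htr _) (htr _)) (inv_mem (htr _))) (inv_mem (htr _))
  let φ : E →* RegularWreathProduct (Bn E n) (Cy M) := dlH.comp (cst n)
  have hφ : ∀ x, φ x ∈ H := by
    have h1 : (⊤ : Subgroup E) ≤ H.comap φ := by
      rw [← he, Subgroup.closure_le]
      rintro _ ⟨i, hi, rfl⟩
      change φ (e i) ∈ H
      simp only [φ, MonoidHom.comp_apply, dlH_apply]
      exact hdl i hi
    exact fun x => h1 (Subgroup.mem_top x)
  have hφi : Function.Injective φ := by
    intro x y h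
    exact cst_injective (dlH_injective h)
  refine ⟨H, inferInstance, ?_, ?_, ?_, φ.codRestrict H hφ, ?_⟩
  · intro h
    apply Subtype.ext
    refine wreath_pow (fun c => ?_) (fun d => wreath_pow (fun c => ?_) hEn d) (h : RegularWreathProduct (Bn E n) (Cy M))
    · rw [← ofAdd_toAdd c, ← ofAdd_nsmul, nsmul_eq_mul]
      simp
    · rw [← ofAdd_toAdd c, ← ofAdd_nsmul, nsmul_eq_mul]
      simp
  · exact folner_of_injective H.subtype Subtype.val_injective (folner_wreath (folner_wreath hF))
  · refine ⟨⟨_, hinl (Multiplicative.ofAdd 1)⟩, ⟨_, hfn⟩, ?_⟩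
    rw [eq_top_iff, ← Subgroup.closure_closure_coe_preimage (k :=
      {RegularWreathProduct.inl (Multiplicative.ofAdd 1), fn b})]
    refine Subgroup.closure_mono ?_
    rintro ⟨x, hx⟩ h
    rcases h with h | h
    · exact Or.inl (Subtype.ext h)
    · exact Or.inr (Subtype.ext h)
  · intro x y h
    exact hφi (congrArg Subtype.val h)

theorem exists_gens (hE : Group.FG E) :
    ∃ (r : ℕ) (e : ℕ → E), Subgroup.closure (e '' Set.Iio r) = ⊤ := by
  obtain ⟨S, hS⟩ := hE.out
  refine ⟨S.toList.length, fun i => S.toList.getD i 1, ?_⟩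
  rw [eq_top_iff, ← hS]
  refine Subgroup.closure_mono fun x hx => ?_
  obtain ⟨i, hi, hxi⟩ := List.mem_iff_getElem.1 (mem_toList.2 (mem_coe.1 hx))
  refine ⟨i, hi, ?_⟩
  change S.toList.getD i 1 = x
  rw [List.getD_eq_getElem _ _ hi, hxi]

/-- a finitely generated group is contained in a group with two generators -/
theorem exists_two (hE : Group.FG E) {n : ℕ} (hn : 0 < n) (hEn : ∀ e : E, e ^ n = 1)
    (hF : Folner E) : ∃ (H : Type) (_ : Group H), (∃ m : ℕ, 0 < m ∧ ∀ h : H, h ^ m = 1) ∧
      Folner H ∧ (∃ x y : H, Subgroup.closure {x, y} = ⊤) ∧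
      ∃ φ : E →* H, Function.Injective φ := by
  obtain ⟨r, e, he⟩ := exists_gens hE
  obtain ⟨H, hH, h1, h2⟩ := exists_two' r e he hn hEn hF
  exact ⟨H, hH, ⟨_, by positivity, h1⟩, h2⟩

end two

end Pool.Agent.AMB
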