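import Pool.Agent.Lib.AMB.Folner

/-!
# Sparse functions in wreath products
-/

set_option autoImplicit false

namespace Pool.Agent.AMB

open Finset

/-! ### exponents -/

theorem pow_mul_of_ker {G Q : Type*} [Group G] [Group Q] (π : G →* Q) {m l : ℕ}
    (hQ : ∀ q : Q, q ^ m = 1) (hN : ∀ g : G, π g = 1 → g ^ l = 1) (g : G) :
    g ^ (m * l) = 1 := by
  rw [pow_mul]
  exact hN _ (by rw [map_pow, hQ])

theorem wreath_pow {D Q : Type*} [Group D] [Group Q] {m l : ℕ} (hQ : ∀ q : Q, q ^ m = 1)
    (hD : ∀ d : D, d ^ l = 1) (w : RegularWreathProduct D Q) : w ^ (m * l) = 1 := by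
  refine pow_mul_of_ker RegularWreathProduct.rightHom hQ (fun v hv => ?_) w
  have hv' : v.right = 1 := hv
  have h : ∀ k : ℕ, v ^ k = ⟨fun x => v.left x ^ k, 1⟩ := by
    intro k
    induction k with
    | zero => simp only [pow_zero]; rfl
    | succ k ih =>
      rw [pow_succ, ih]
      refine RegularWreathProduct.ext ?_ ?_
      · funext x
        simp only [RegularWreathProduct.mul_left, Pi.mul_apply, inv_one, one_mul, pow_succ]
      · simp only [RegularWreathProduct.mul_right, hv', one_mul]
  rw [h]
  refine RegularWreathProduct.ext ?_ rfl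
  funext x
  exact hD _

/-! ### a constant function is a commutator -/

section cst

variable {A : Type*} [Group A] {n : ℕ} [NeZero n]

/-- the group `A wr (ℤ / n)` -/
abbrev Bn (A : Type*) [Group A] (n : ℕ) : Type _ :=
  RegularWreathProduct A (Multiplicative (ZMod n))

/-- the function `x ↦ a ^ x` -/
def ha (n : ℕ) (a : A) : Bn A n := ⟨fun x => a ^ (Multiplicative.toAdd x).val, 1⟩

/-- the shift -/
def sg (A : Type*) [Group A] (n : ℕ) : Bn A n := RegularWreathProduct.inl (Multiplicative.ofAdd 1)

/-- the constant functions -/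
def cst (n : ℕ) : A →* Bn A n where
  toFun a := ⟨fun _ => a, 1⟩
  map_one' := rfl
  map_mul' a b := by
    refine RegularWreathProduct.ext ?_ ?_
    · rfl
    · simp only [RegularWreathProduct.mul_right, mul_one]

omit [NeZero n] in
theorem cst_injective : Function.Injective (cst (A := A) n) := by
  intro a b h
  exact congrFun (congrArg RegularWreathProduct.left h) 1

theorem comm_ha_sg (hA : ∀ a : A, a ^ n = 1) (a : A) :
    ha n a * sg A n * (ha n a)⁻¹ * (sg A n)⁻¹ = cst n a := by
  refine RegularWreathProduct.ext ?_ ?_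
  · funext x
    simp only [ha, sg, cst, RegularWreathProduct.mul_left, RegularWreathProduct.inv_left,
      RegularWreathProduct.left_inl, RegularWreathProduct.right_inl,
      RegularWreathProduct.mul_right, Pi.mul_apply, Pi.inv_apply, Pi.one_apply, mul_one,
      one_mul, inv_one, MonoidHom.coe_mk, OneHom.coe_mk]
    have key : ∀ y : ZMod n, a ^ y.val * (a ^ (-1 + y).val)⁻¹ = a := by
      intro y
      rw [mul_inv_eq_iff_eq_mul, ← pow_succ']
      have h1 : ((-1 + y).val + 1) % n = y.val := by
        have h2 : y = ((((-1 + y).val + 1 : ℕ)) : ZMod n) := by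
          push_cast
          rw [ZMod.natCast_zmod_val]
          ring
        conv_rhs => rw [h2]
        rw [ZMod.val_natCast]
      rw [← h1]
      exact (pow_eq_pow_mod _ (hA a)).symm
    exact key (Multiplicative.toAdd x)
  · simp only [ha, sg, cst, RegularWreathProduct.mul_right, RegularWreathProduct.inv_right,
      RegularWreathProduct.right_inl, MonoidHom.coe_mk, OneHom.coe_mk, one_mul, inv_one, mul_one,
      mul_inv_cancel]

end cst

/-! ### functions on the top group -/

section top

variable {B G : Type*} [Group B] [Group G]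

/-- a function on `G` as an element of the wreath product -/
def fn : (G → B) →* RegularWreathProduct B G where
  toFun f := ⟨f, 1⟩
  map_one' := rfl
  map_mul' f g := by
    refine RegularWreathProduct.ext ?_ ?_
    · funext x
      simp only [RegularWreathProduct.mul_left, Pi.mul_apply, inv_one, one_mul]
    · simp only [RegularWreathProduct.mul_right, mul_one]

theorem fn_injective : Function.Injective (fn (B := B) (G := G)) := fun _ _ h =>
  congrArg RegularWreathProduct.left h

/-- the translate -/
def tr (g : G) (f : G → B) : G → B := fun x => f (g⁻¹ * x)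

theorem conj_fn (g : G) (f : G → B) :
    RegularWreathProduct.inl g * fn f * (RegularWreathProduct.inl g)⁻¹ = fn (tr g f) := by
  refine RegularWreathProduct.ext ?_ ?_
  · funext x
    simp only [fn, tr, RegularWreathProduct.mul_left, RegularWreathProduct.mul_right,
      RegularWreathProduct.inv_left, RegularWreathProduct.left_inl,
      RegularWreathProduct.right_inl, Pi.mul_apply, Pi.one_apply, Pi.inv_apply, one_mul, inv_one,
      mul_one, MonoidHom.coe_mk, OneHom.coe_mk]
  · simp only [fn, RegularWreathProduct.mul_right, RegularWreathProduct.inv_right,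
      RegularWreathProduct.right_inl, MonoidHom.coe_mk, OneHom.coe_mk, mul_one, mul_inv_cancel]

open Classical in
/-- a function supported at `1` -/
noncomputable def dl (b : B) : G → B := Pi.mulSingle 1 b

theorem dl_one (b : B) : dl (G := G) b 1 = b := by
  classical
  unfold dl
  rw [Pi.mulSingle_eq_same]

theorem dl_ne {x : G} (b : B) (hx : x ≠ 1) : dl b x = 1 := by
  classical
  unfold dl
  rw [Pi.mulSingle_eq_of_ne hx]

theorem dl_mul (b c : B) : dl (G := G) (b * c) = dl b * dl c := by
  funext x
  by_cases hx : x = 1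
  · subst hx
    rw [Pi.mul_apply, dl_one, dl_one, dl_one]
  · rw [Pi.mul_apply, dl_ne _ hx, dl_ne _ hx, dl_ne _ hx, one_mul]

/-- the embedding of the delta functions -/
noncomputable def dlH : B →* RegularWreathProduct B G :=
  MonoidHom.mk' (fun b => fn (dl b)) fun b c => by
    rw [dl_mul, map_mul]

theorem dlH_apply (b : B) : dlH b = fn (dl (G := G) b) := rfl

theorem dlH_injective : Function.Injective (dlH (B := B) (G := G)) := by
  intro b c h
  have h1 := congrFun (fn_injective h) 1
  rwa [dl_one, dl_one] at h1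

/-- pointwise commutators with disjoint supports outside `1` -/
theorem comm_eq_dl (f f' : G → B) (h : ∀ x, x ≠ 1 → f x = 1 ∨ f' x = 1) :
    f * f' * f⁻¹ * f'⁻¹ = dl (f 1 * f' 1 * (f 1)⁻¹ * (f' 1)⁻¹) := by
  funext x
  by_cases hx : x = 1
  · subst hx
    rw [dl_one]
    rfl
  · rw [dl_ne _ hx]
    simp only [Pi.mul_apply, Pi.inv_apply]
    rcases h x hx with h1 | h1 <;> rw [h1] <;> group

end top

/-! ### almost disjoint functions generate a Foelner group -/

section local_

variable {B G : Type*} [Group B]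

/-- supports meet in a finite set -/
def AD (z z' : G → B) : Prop := {x | z x ≠ 1 ∧ z' x ≠ 1}.Finite

theorem folner_closure_of_AD (hB : Folner B) {n : ℕ} (hn : 0 < n) (hBn : ∀ b : B, b ^ n = 1)
    (Z : Set (G → B)) (hZ : Z.Finite) (hAD : ∀ z ∈ Z, ∀ z' ∈ Z, z ≠ z' → AD z z') :
    Folner (Subgroup.closure Z) := by
  classical
  -- the exceptional points
  have hR : (⋃ z ∈ Z, ⋃ z' ∈ Z, {x | z ≠ z' ∧ z x ≠ 1 ∧ z' x ≠ 1}).Finite := by
    refine hZ.biUnion fun z hz => hZ.biUnion fun z' hz' => ?_
    by_cases h : z = z'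
    · subst h
      refine Set.Finite.subset Set.finite_empty ?_
      rintro x ⟨h1, _⟩
      exact absurd rfl h1
    · refine (hAD z hz z' hz' h).subset ?_
      rintro x ⟨_, h1⟩
      exact h1
  set R := ⋃ z ∈ Z, ⋃ z' ∈ Z, {x | z ≠ z' ∧ z x ≠ 1 ∧ z' x ≠ 1} with hRdef
  have hRx : ∀ x, x ∉ R → ∀ z ∈ Z, ∀ z' ∈ Z, z ≠ z' → z x = 1 ∨ z' x = 1 := by
    intro x hx z hz z' hz' h
    by_contra hc
    push Not at hc
    exact hx (Set.mem_biUnion hz (Set.mem_biUnion hz' ⟨h, hc⟩))
  -- restriction to the complement
  let c : (G → B) →* ({x // x ∉ R} → B) :=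
    MonoidHom.mk' (fun f x => f x) fun _ _ => rfl
  have hcomm : ∀ u ∈ c '' Z, ∀ v ∈ c '' Z, u * v = v * u := by
    rintro _ ⟨z, hz, rfl⟩ _ ⟨z', hz', rfl⟩
    by_cases h : z = z'
    · rw [h]
    · funext x
      change z x * z' x = z' x * z x
      rcases hRx x x.2 z hz z' hz' h with h1 | h1 <;> rw [h1] <;> simp
  have hfin : Finite (Subgroup.closure (c '' Z)) := by
    have hc := Subgroup.isMulCommutative_closure hcomm
    let _ : CommGroup (Subgroup.closure (c '' Z)) :=
      { (Subgroup.toGroup (Subgroup.closure (c '' Z))) with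
        mul_comm := fun x y => hc.is_comm.comm x y }
    have hfg : Group.FG (Subgroup.closure (c '' Z)) :=
      (Group.fg_iff_subgroup_fg _).2 ⟨(hZ.image c).toFinset, by rw [Set.Finite.coe_toFinset]⟩
    refine CommGroup.finite_of_fg_isMulTorsion _ fun g =>
      isOfFinOrder_iff_pow_eq_one.2 ⟨n, hn, ?_⟩
    exact Subtype.ext (funext fun x => hBn _)
  let π : Subgroup.closure Z →* ({x // x ∉ R} → B) := c.comp (Subgroup.closure Z).subtype
  have hrange : π.range = Subgroup.closure (c '' Z) := by
    rw [← MonoidHom.map_closure, MonoidHom.range_eq_map, ← Subgroup.map_map,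
      ← MonoidHom.range_eq_map, Subgroup.range_subtype]
  have hRf : Finite π.range := by
    rw [hrange]
    exact hfin
  have : Finite R := hR
  refine folner_of_surjective_ker π.rangeRestrict π.rangeRestrict_surjective folner_of_finite ?_
  refine folner_of_injective (MonoidHom.mk' (fun (f : π.rangeRestrict.ker) (x : R) =>
    (f : Subgroup.closure Z).1 x) fun _ _ => rfl) ?_ (folner_pi (ι := R) hB)
  rw [injective_iff_map_eq_one]
  rintro ⟨⟨f, hf⟩, hk⟩ h
  rw [MonoidHom.ker_rangeRestrict] at hk
  apply Subtype.ext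
  apply Subtype.ext
  funext x
  by_cases hx : x ∈ R
  · exact congrFun h ⟨x, hx⟩
  · exact congrFun (MonoidHom.mem_ker.1 hk) ⟨x, hx⟩

/-- a member of a closure is a member of the closure of finitely many generators -/
theorem exists_finite_closure {H : Type*} [Group H] (T : Set H) {x : H}
    (hx : x ∈ Subgroup.closure T) : ∃ Z ⊆ T, Z.Finite ∧ x ∈ Subgroup.closure Z := by
  refine Subgroup.closure_induction
    (p := fun x _ => ∃ Z ⊆ T, Z.Finite ∧ x ∈ Subgroup.closure Z) ?_ ?_ ?_ ?_ hx
  · intro y hy
    exact ⟨{y}, Set.singleton_subset_iff.2 hy, Set.finite_singleton y,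
      Subgroup.subset_closure rfl⟩
  · exact ⟨∅, Set.empty_subset _, Set.finite_empty, one_mem _⟩
  · rintro y z _ _ ⟨Z, hZ, hZf, hy⟩ ⟨Z', hZ', hZf', hz⟩
    exact ⟨Z ∪ Z', Set.union_subset hZ hZ', hZf.union hZf', mul_mem
      (Subgroup.closure_mono Set.subset_union_left hy)
      (Subgroup.closure_mono Set.subset_union_right hz)⟩
  · rintro y _ ⟨Z, hZ, hZf, hy⟩
    exact ⟨Z, hZ, hZf, inv_mem hy⟩

theorem exists_finite_closure' {H : Type*} [Group H] (T : Set H) (S : Finset H)
    (hS : ∀ x ∈ S, x ∈ Subgroup.closure T) :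
    ∃ Z ⊆ T, Z.Finite ∧ ∀ x ∈ S, x ∈ Subgroup.closure Z := by
  classical
  induction S using Finset.induction_on with
  | empty => exact ⟨∅, Set.empty_subset _, Set.finite_empty, by simp⟩
  | insert a S _ ih =>
    obtain ⟨Z, hZ, hZf, h1⟩ := ih fun x hx => hS x (mem_insert_of_mem hx)
    obtain ⟨Z', hZ', hZf', h2⟩ := exists_finite_closure T (hS a (mem_insert_self a S))
    refine ⟨Z ∪ Z', Set.union_subset hZ hZ', hZf.union hZf', fun x hx => ?_⟩
    rcases mem_insert.1 hx with rfl | hx
    · exact Subgroup.closure_mono Set.subset_union_right h2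
    · exact Subgroup.closure_mono Set.subset_union_left (h1 x hx)

/-- pairwise almost disjoint functions generate a Foelner group -/
theorem folner_closure_AD (hB : Folner B) {n : ℕ} (hn : 0 < n) (hBn : ∀ b : B, b ^ n = 1)
    (T : Set (G → B)) (hAD : ∀ z ∈ T, ∀ z' ∈ T, z ≠ z' → AD z z') :
    Folner (Subgroup.closure T) := by
  classical
  refine folner_of_local fun S => ?_
  obtain ⟨Z, hZ, hZf, h1⟩ := exists_finite_closure' T (S.map ⟨Subtype.val,
    Subtype.val_injective⟩) (by
      intro x hx
      obtain ⟨y, _, rfl⟩ := mem_map.1 hx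
      exact y.2)
  refine ⟨(Subgroup.closure Z).subgroupOf (Subgroup.closure T), fun s hs => ?_, ?_⟩
  · exact Subgroup.mem_subgroupOf.2 (h1 s (mem_map.2 ⟨s, hs, rfl⟩))
  · refine folner_of_injective (MonoidHom.mk' (fun (g : (Subgroup.closure Z).subgroupOf
      (Subgroup.closure T)) => (⟨(g : Subgroup.closure T).1, Subgroup.mem_subgroupOf.1 g.2⟩ :
        Subgroup.closure Z)) fun _ _ => rfl) ?_ (folner_closure_of_AD hB hn hBn Z hZf
          fun z hz z' hz' => hAD z (hZ hz) z' (hZ hz'))
    intro g g' h
    exact Subtype.ext (Subtype.ext (congrArg (fun y : Subgroup.closure Z => (y : G → B)) h))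

end local_

end Pool.Agent.AMB
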